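import Pool.Agent.H77.BH.A_DR

/-!
# The hybrid bound of Burgess: (DC) separation at a complex place
-/

set_option autoImplicit false
set_option linter.unusedVariables false

open MeasureTheory Set Filter Complex
open scoped ENNReal Topology

namespace Pool.Agent.H77.BH

open Pool.Agent.H29.DW (dg Rl)
open Pool.Agent.H29.BH

/-- the weights on the square -/
noncomputable def wC (k : ℤ) (μ : ℂ) (η : ℝ) (j : Fin 4) : ℂ → ℂ :=
  match j with
  | 0 => fun _ => ((η : ℂ) ^ 2)⁻¹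
  | 1 => fun s => -(((cc k μ : ℝ) : ℂ) * (((η : ℂ))⁻¹ * (1 - (s.re : ℂ) / η)))
  | 2 => fun s => -(((cc k μ : ℝ) : ℂ) * (((η : ℂ))⁻¹ * (1 - (s.im : ℂ) / η)))
  | 3 => fun s => ((cc k μ : ℝ) : ℂ) ^ 2 * ((1 - (s.re : ℂ) / η) * (1 - (s.im : ℂ) / η))

/-- the amplitudes -/
noncomputable def aC (k : ℤ) (μ : ℂ) (j : Fin 4) : ℂ → ℂ → ℂ :=
  match j with
  | 0 => fun _ => chi
  | 1 => A1 k μ 1
  | 2 => A1 k μ I
  | 3 => A3 k μ

/-- the integrands on the square -/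
noncomputable def gC (k : ℤ) (μ b p : ℂ) (η : ℝ) (j : Fin 4) : ℂ → ℂ :=
  match j with
  | 0 => fun s => ((η : ℂ) ^ 2)⁻¹ * FF k μ b (p + s)
  | 1 => fun s => -(((η : ℂ))⁻¹ * (1 - (s.re : ℂ) / η) * (aa k μ b 1 (p + s) *
      FF k μ b (p + s)))
  | 2 => fun s => -(((η : ℂ))⁻¹ * (1 - (s.im : ℂ) / η) * (aa k μ b I (p + s) *
      FF k μ b (p + s)))
  | 3 => fun s => (1 - (s.re : ℂ) / η) * (1 - (s.im : ℂ) / η) *
      ((bb k μ b 1 I (p + s) + aa k μ b 1 (p + s) * aa k μ b I (p + s)) * FF k μ b (p + s))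

theorem wC_measurable (k : ℤ) (μ : ℂ) (η : ℝ) (j : Fin 4) : Measurable (wC k μ η j) := by
  have h1 : Measurable (fun s : ℂ => (s.re : ℂ)) :=
    (Complex.continuous_ofReal.comp Complex.continuous_re).measurable
  have h2 : Measurable (fun s : ℂ => (s.im : ℂ)) :=
    (Complex.continuous_ofReal.comp Complex.continuous_im).measurable
  fin_cases j
  · exact measurable_const
  · show Measurable fun s : ℂ => -(((cc k μ : ℝ) : ℂ) * (((η : ℂ))⁻¹ * (1 - (s.re : ℂ) / η)))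
    fun_prop
  · show Measurable fun s : ℂ => -(((cc k μ : ℝ) : ℂ) * (((η : ℂ))⁻¹ * (1 - (s.im : ℂ) / η)))
    fun_prop
  · show Measurable fun s : ℂ =>
      ((cc k μ : ℝ) : ℂ) ^ 2 * ((1 - (s.re : ℂ) / η) * (1 - (s.im : ℂ) / η))
    fun_prop

theorem wC_bound {k : ℤ} {μ : ℂ} {η : ℝ} (hη : 0 < η) (hηc : η * cc k μ ≤ 1 / 16) (j : Fin 4)
    {s : ℂ} (hs : s ∈ Sq η) : ‖wC k μ η j s‖ ≤ (η ^ 2)⁻¹ := by
  obtain ⟨h1, h2⟩ := Complex.mem_reProdIm.1 hs
  have h3 := norm_one_sub_div hη h1.1 h1.2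
  have h4 := norm_one_sub_div hη h2.1 h2.2
  have hc := cc_pos k μ
  have h5 : cc k μ ≤ η⁻¹ := by
    rw [le_inv_comm₀ hc hη, ← one_div, le_div_iff₀ hc]
    linarith
  have hi : 0 < η⁻¹ := inv_pos.2 hη
  have h6 : (η ^ 2)⁻¹ = η⁻¹ * η⁻¹ := by rw [pow_two, mul_inv]
  have hcn : ‖((cc k μ : ℝ) : ℂ)‖ = cc k μ := by
    rw [Complex.norm_real, Real.norm_eq_abs, abs_of_pos hc]
  have hηn : ‖((η : ℂ))⁻¹‖ = η⁻¹ := by
    rw [norm_inv, Complex.norm_real, Real.norm_eq_abs, abs_of_pos hη]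
  rw [h6]
  fin_cases j
  · show ‖((η : ℂ) ^ 2)⁻¹‖ ≤ η⁻¹ * η⁻¹
    rw [pow_two, mul_inv, norm_mul, hηn]
  · show ‖-(((cc k μ : ℝ) : ℂ) * (((η : ℂ))⁻¹ * (1 - (s.re : ℂ) / η)))‖ ≤ η⁻¹ * η⁻¹
    rw [norm_neg, norm_mul, norm_mul, hcn, hηn]
    refine mul_le_mul h5 ?_ (mul_nonneg hi.le (norm_nonneg _)) hi.le
    calc η⁻¹ * ‖(1 : ℂ) - (s.re : ℂ) / η‖ ≤ η⁻¹ * 1 := mul_le_mul_of_nonneg_left h3 hi.le
      _ = η⁻¹ := mul_one _
  · show ‖-(((cc k μ : ℝ) : ℂ) * (((η : ℂ))⁻¹ * (1 - (s.im : ℂ) / η)))‖ ≤ η⁻¹ * η⁻¹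
    rw [norm_neg, norm_mul, norm_mul, hcn, hηn]
    refine mul_le_mul h5 ?_ (mul_nonneg hi.le (norm_nonneg _)) hi.le
    calc η⁻¹ * ‖(1 : ℂ) - (s.im : ℂ) / η‖ ≤ η⁻¹ * 1 := mul_le_mul_of_nonneg_left h4 hi.le
      _ = η⁻¹ := mul_one _
  · show ‖((cc k μ : ℝ) : ℂ) ^ 2 * ((1 - (s.re : ℂ) / η) * (1 - (s.im : ℂ) / η))‖ ≤ η⁻¹ * η⁻¹
    rw [norm_mul, norm_pow, norm_mul, hcn, pow_two]
    calc cc k μ * cc k μ * (‖(1 : ℂ) - (s.re : ℂ) / η‖ * ‖(1 : ℂ) - (s.im : ℂ) / η‖) ≤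
          cc k μ * cc k μ * (1 * 1) := mul_le_mul_of_nonneg_left
            (mul_le_mul h3 h4 (norm_nonneg _) zero_le_one) (mul_pos hc hc).le
      _ = cc k μ * cc k μ := by ring
      _ ≤ η⁻¹ * η⁻¹ := mul_le_mul h5 h5 hc.le hi.le

theorem aC_measurable (k : ℤ) (μ : ℂ) (j : Fin 4) :
    Measurable (fun q : ℂ × ℂ => aC k μ j q.1 q.2) := by
  fin_cases j
  · exact chi2_measurable
  · exact A1_measurable k μ 1
  · exact A1_measurable k μ I
  · exact A3_measurable k μ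

/-- the integrands -/
theorem wa_eq {k : ℤ} {μ b p : ℂ} {η : ℝ} (hη : 0 < η) (j : Fin 4) {s : ℂ}
    (hs : chi (p + s) = 1) : wC k μ η j s * (aC k μ j b (p + s) * FF k μ b (p + s)) =
      gC k μ b p η j s := by
  have hc := cc_ne k μ
  fin_cases j
  · show ((η : ℂ) ^ 2)⁻¹ * (chi (p + s) * FF k μ b (p + s)) = _
    rw [hs, one_mul]
    rfl
  · show -(((cc k μ : ℝ) : ℂ) * (((η : ℂ))⁻¹ * (1 - (s.re : ℂ) / η))) *
      (A1 k μ 1 b (p + s) * FF k μ b (p + s)) = -(((η : ℂ))⁻¹ * (1 - (s.re : ℂ) / η) *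
      (aa k μ b 1 (p + s) * FF k μ b (p + s)))
    unfold A1
    rw [hs, one_mul]
    field_simp
  · show -(((cc k μ : ℝ) : ℂ) * (((η : ℂ))⁻¹ * (1 - (s.im : ℂ) / η))) *
      (A1 k μ I b (p + s) * FF k μ b (p + s)) = -(((η : ℂ))⁻¹ * (1 - (s.im : ℂ) / η) *
      (aa k μ b I (p + s) * FF k μ b (p + s)))
    unfold A1
    rw [hs, one_mul]
    field_simp
  · show ((cc k μ : ℝ) : ℂ) ^ 2 * ((1 - (s.re : ℂ) / η) * (1 - (s.im : ℂ) / η)) *
      (A3 k μ b (p + s) * FF k μ b (p + s)) = (1 - (s.re : ℂ) / η) * (1 - (s.im : ℂ) / η) *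
      ((bb k μ b 1 I (p + s) + aa k μ b 1 (p + s) * aa k μ b I (p + s)) * FF k μ b (p + s))
    unfold A3
    rw [hs, one_mul]
    field_simp

/-- the partial integrations -/
theorem ftc2 {k : ℤ} {μ b p : ℂ} {η : ℝ} (hη : 0 < η) (hb : ‖b‖ ≤ 1 / 8)
    (hz : ∀ s ∈ Sq η, (1 : ℝ) / 2 < ‖p + s‖) :
    ∫ x in (0 : ℝ)..η, ∫ y in (0 : ℝ)..η, ∑ j : Fin 4, gC k μ b p η j ((x : ℂ) + y * I) =
      FF k μ b p := by
  have hmem : ∀ x ∈ Icc 0 η, ∀ y ∈ Icc 0 η, (x : ℂ) + y * I ∈ Sq η := by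
    intro x hx y hy
    refine Complex.mem_reProdIm.2 ⟨?_, ?_⟩
    · simpa using hx
    · simpa using hy
  have h0 : (0 : ℝ) ∈ Icc 0 η := ⟨le_rfl, hη.le⟩
  have hγy : ∀ x y : ℝ, HasDerivAt (fun y : ℝ => p + ((x : ℂ) + y * I)) I y := by
    intro x y
    have h1 : HasDerivAt (fun y : ℝ => (y : ℂ)) 1 y := Complex.ofRealCLM.hasDerivAt
    refine (((h1.mul_const I).const_add (x : ℂ)).const_add p).congr_deriv ?_
    rw [one_mul]
  have hγx : ∀ x : ℝ, HasDerivAt (fun x : ℝ => p + (x : ℂ)) 1 x := fun x =>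
    (Complex.ofRealCLM.hasDerivAt (x := x)).const_add p
  have hzx : ∀ x ∈ Icc 0 η, (1 : ℝ) / 2 < ‖p + (x : ℂ)‖ := by
    intro x hx
    have h1 := hz _ (hmem x hx 0 h0)
    rwa [Complex.ofReal_zero, zero_mul, add_zero] at h1
  have hin : ∀ x ∈ Icc 0 η,
      ∫ y in (0 : ℝ)..η, ∑ j : Fin 4, gC k μ b p η j ((x : ℂ) + y * I) =
      ((η : ℂ))⁻¹ * FF k μ b (p + x) - (1 - (x : ℂ) / η) *
        (aa k μ b 1 (p + x) * FF k μ b (p + x)) := by
    intro x hx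
    have hzy : ∀ y ∈ Icc 0 η, (1 : ℝ) / 2 < ‖p + ((x : ℂ) + y * I)‖ := fun y hy =>
      hz _ (hmem x hx y hy)
    have hcγ : ContinuousOn (fun y : ℝ => p + ((x : ℂ) + y * I)) (Icc 0 η) := by fun_prop
    have hcF : ContinuousOn (fun y : ℝ => FF k μ b (p + ((x : ℂ) + y * I))) (Icc 0 η) :=
      (FF_continuousOn hb).comp hcγ hzy
    have hca : ∀ v : ℂ, ContinuousOn (fun y : ℝ => aa k μ b v (p + ((x : ℂ) + y * I)))
        (Icc 0 η) := fun v => (aa_continuousOn hb v).comp hcγ hzy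
    have hcb : ContinuousOn (fun y : ℝ => bb k μ b 1 I (p + ((x : ℂ) + y * I))) (Icc 0 η) :=
      (bb_continuousOn hb 1 I).comp hcγ hzy
    have h1 := ftc (X := fun y : ℝ => ((η : ℂ))⁻¹ * FF k μ b (p + ((x : ℂ) + y * I)) -
        (1 - (x : ℂ) / η) * (aa k μ b 1 (p + ((x : ℂ) + y * I)) *
          FF k μ b (p + ((x : ℂ) + y * I))))
      (X' := fun y : ℝ => ((η : ℂ))⁻¹ * (aa k μ b I (p + ((x : ℂ) + y * I)) *
          FF k μ b (p + ((x : ℂ) + y * I))) -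
        (1 - (x : ℂ) / η) * (bb k μ b 1 I (p + ((x : ℂ) + y * I)) *
          FF k μ b (p + ((x : ℂ) + y * I)) + aa k μ b 1 (p + ((x : ℂ) + y * I)) *
          (aa k μ b I (p + ((x : ℂ) + y * I)) * FF k μ b (p + ((x : ℂ) + y * I)))))
      hη (fun y hy => ?_) ?_
    · have h2 : (fun y : ℝ => ∑ j : Fin 4, gC k μ b p η j ((x : ℂ) + y * I)) = fun t : ℝ =>
          ((η : ℂ))⁻¹ * (((η : ℂ))⁻¹ * FF k μ b (p + ((x : ℂ) + t * I)) -
          (1 - (x : ℂ) / η) * (aa k μ b 1 (p + ((x : ℂ) + t * I)) *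
            FF k μ b (p + ((x : ℂ) + t * I)))) -
          (1 - (t : ℂ) / η) * (((η : ℂ))⁻¹ * (aa k μ b I (p + ((x : ℂ) + t * I)) *
            FF k μ b (p + ((x : ℂ) + t * I))) -
          (1 - (x : ℂ) / η) * (bb k μ b 1 I (p + ((x : ℂ) + t * I)) *
            FF k μ b (p + ((x : ℂ) + t * I)) + aa k μ b 1 (p + ((x : ℂ) + t * I)) *
            (aa k μ b I (p + ((x : ℂ) + t * I)) * FF k μ b (p + ((x : ℂ) + t * I))))) := by
        funext t
        have hre : ((x : ℂ) + t * I).re = x := by simp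
        have him : ((x : ℂ) + t * I).im = t := by simp
        rw [Fin.sum_univ_four]
        simp only [gC, hre, him]
        rw [pow_two, mul_inv]
        ring
      rw [h2, h1, Complex.ofReal_zero, zero_mul, add_zero]
    · have hF := FF_deriv (k := k) (μ := μ) hb (hγy x y) (hzy y hy)
      have ha := aa_deriv (k := k) (μ := μ) hb (hγy x y) (hzy y hy) 1
      exact (hF.const_mul _).sub ((ha.mul hF).const_mul _)
    · exact (continuousOn_const.mul ((hca I).mul hcF)).sub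
        (continuousOn_const.mul ((hcb.mul hcF).add ((hca 1).mul ((hca I).mul hcF))))
  have hout : ∫ x in (0 : ℝ)..η, ∫ y in (0 : ℝ)..η,
      ∑ j : Fin 4, gC k μ b p η j ((x : ℂ) + y * I) =
      ∫ x in (0 : ℝ)..η, (((η : ℂ))⁻¹ * FF k μ b (p + x) - (1 - (x : ℂ) / η) *
        (aa k μ b 1 (p + x) * FF k μ b (p + x))) := by
    refine intervalIntegral.integral_congr fun x hx => ?_
    rw [uIcc_of_le hη.le] at hx
    exact hin x hx
  have hcγ : ContinuousOn (fun x : ℝ => p + (x : ℂ)) (Icc 0 η) := by fun_prop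
  have hcF' : ContinuousOn (fun x : ℝ => aa k μ b 1 (p + x) * FF k μ b (p + x)) (Icc 0 η) :=
    ((aa_continuousOn hb 1).comp hcγ hzx).mul ((FF_continuousOn hb).comp hcγ hzx)
  rw [hout, ftc hη (fun t ht => FF_deriv (k := k) (μ := μ) hb (hγx t) (hzx t ht)) hcF',
    Complex.ofReal_zero, add_zero]

theorem gC_continuousOn {k : ℤ} {μ b p : ℂ} {η : ℝ} (hb : ‖b‖ ≤ 1 / 8)
    (hz : ∀ s ∈ Sq η, (1 : ℝ) / 2 < ‖p + s‖) (j : Fin 4) :
    ContinuousOn (gC k μ b p η j) (Sq η) := by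
  have hcγ : ContinuousOn (fun s : ℂ => p + s) (Sq η) := by fun_prop
  have hcF : ContinuousOn (fun s : ℂ => FF k μ b (p + s)) (Sq η) :=
    (FF_continuousOn hb).comp hcγ hz
  have hca : ∀ v : ℂ, ContinuousOn (fun s : ℂ => aa k μ b v (p + s)) (Sq η) := fun v =>
    (aa_continuousOn hb v).comp hcγ hz
  have hcb : ContinuousOn (fun s : ℂ => bb k μ b 1 I (p + s)) (Sq η) :=
    (bb_continuousOn hb 1 I).comp hcγ hz
  have hre : ContinuousOn (fun s : ℂ => 1 - (s.re : ℂ) / η) (Sq η) := by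
    have : Continuous (fun s : ℂ => (s.re : ℂ)) :=
      Complex.continuous_ofReal.comp Complex.continuous_re
    exact continuousOn_const.sub (this.continuousOn.div_const _)
  have him : ContinuousOn (fun s : ℂ => 1 - (s.im : ℂ) / η) (Sq η) := by
    have : Continuous (fun s : ℂ => (s.im : ℂ)) :=
      Complex.continuous_ofReal.comp Complex.continuous_im
    exact continuousOn_const.sub (this.continuousOn.div_const _)
  fin_cases j
  · exact continuousOn_const.mul hcF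
  · exact ((continuousOn_const.mul hre).mul ((hca 1).mul hcF)).neg
  · exact ((continuousOn_const.mul him).mul ((hca I).mul hcF)).neg
  · exact (hre.mul him).mul ((hcb.add ((hca 1).mul (hca I))).mul hcF)

theorem pf_A_DC : A_DC := by
  obtain ⟨C, hC, hsm⟩ := sm_all
  have hC0 : 0 ≤ C := by linarith
  refine ⟨C, hC, fun k μ η hQ hη hηc => ?_⟩
  have hη1 : η ≤ 1 / 16 := by
    have h1 := cc_ge k μ
    nlinarith
  have hdg : η ^ (-(dg false : ℝ)) = (η ^ 2)⁻¹ := by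
    have : dg false = 2 := rfl
    rw [this, Real.rpow_neg hη.le, Real.rpow_natCast]
  have hsmj : ∀ (j : Fin 4) (b : ℂ), ‖b‖ ≤ 1 / 8 → Sm false C (aC k μ j b) := by
    intro j b hb
    obtain ⟨h0, h1, h2, h3⟩ := hsm false false k μ b hQ hb
    fin_cases j
    · exact h0
    · exact h1
    · exact h2
    · exact h3
  refine ⟨fun j => (Sq η).indicator (wC k μ η j), fun j => cut (aC k μ j), ?_, ?_, ?_, ?_, ?_, ?_,
    ?_⟩
  · exact fun j => (wC_measurable k μ η j).indicator (Sq_measurable η)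
  · intro j s
    rw [hdg]
    show ‖(Sq η).indicator (wC k μ η j) s‖ ≤ (η ^ 2)⁻¹
    by_cases hs : s ∈ Sq η
    · rw [indicator_of_mem hs]
      exact wC_bound hη hηc j hs
    · rw [indicator_of_notMem hs, norm_zero]
      positivity
  · intro j s hne
    by_contra h
    exact hne (indicator_of_notMem (fun hs => h (Sq_norm hs)) _)
  · exact fun j => cut_measurable (aC_measurable k μ j)
  · exact fun j b _ hb => cut_sm hb (hsmj j b hb)
  · exact fun j b z => cut_bound hC0 (hsmj j) b z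
  · intro b p _ _ hb hp1 hp2
    have hz : ∀ s ∈ Sq η, 7 / 8 ≤ ‖p + s‖ ∧ ‖p + s‖ ≤ 17 / 8 := by
      intro s hs
      have h1 : ‖s‖ ≤ 1 / 8 := (Sq_norm hs).trans (by linarith)
      constructor
      · have h2 : ‖p‖ ≤ ‖p + s‖ + ‖s‖ := by
          calc ‖p‖ = ‖(p + s) - s‖ := by congr 1; ring
            _ ≤ _ := norm_sub_le _ _
        linarith
      · have h2 := norm_add_le p s
        linarith
    have hz2 : ∀ s ∈ Sq η, (1 : ℝ) / 2 < ‖p + s‖ := fun s hs =>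
      lt_of_lt_of_le (by norm_num) (hz s hs).1
    have he : ∀ j : Fin 4, ∫ s, (Sq η).indicator (wC k μ η j) s *
        (cut (aC k μ j) b (p + s) * Gm k μ (1 + b / (p + s))) ∂mz false =
        ∫ s in Sq η, gC k μ b p η j s := by
      intro j
      rw [mz_false, ← integral_indicator (Sq_measurable η)]
      refine integral_congr_ae (ae_of_all _ fun s => ?_)
      show (Sq η).indicator (wC k μ η j) s *
        (cut (aC k μ j) b (p + s) * FF k μ b (p + s)) = _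
      by_cases hs : s ∈ Sq η
      · rw [indicator_of_mem hs, indicator_of_mem hs, cut_of hb,
          wa_eq hη j (chi_one (hz s hs).1 (hz s hs).2)]
      · rw [indicator_of_notMem hs, indicator_of_notMem hs, zero_mul]
    have hcont := gC_continuousOn (k := k) (μ := μ) (p := p) (η := η) hb hz2
    rw [Finset.sum_congr rfl fun j _ => he j]
    rw [← integral_finsetSum _ fun j _ => (hcont j).integrableOn_compact (Sq_compact η)]
    rw [int_sq hη (continuousOn_finsetSum _ fun j _ => hcont j), ftc2 hη hb hz2]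
    rfl

end Pool.Agent.H77.BH
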