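import Pool.Agent.H77.BH.Core2

/-!
# The hybrid bound of Burgess: (DR) separation at a real place
-/

set_option autoImplicit false
set_option linter.unusedVariables false

open MeasureTheory Set Filter Complex
open scoped ENNReal Topology

namespace Pool.Agent.H77.BH

open Pool.Agent.H29.DW (dg Rl)
open Pool.Agent.H29.BH

/-- the weights -/
noncomputable def kR (k : ℤ) (μ : ℂ) (η : ℝ) (j : Fin 4) : ℂ → ℂ :=
  match j with
  | 0 => (Sq η).indicator fun _ => ((η : ℂ))⁻¹
  | 1 => (Sq η).indicator fun s => -(((cc k μ : ℝ) : ℂ) * (1 - (s.re : ℂ) / η))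
  | _ => fun _ => 0

/-- the amplitudes -/
noncomputable def aR (k : ℤ) (μ : ℂ) (j : Fin 4) : ℂ → ℂ → ℂ :=
  match j with
  | 0 => cut fun _ => chi
  | 1 => cut (A1 k μ 1)
  | _ => fun _ _ => 0

theorem norm_one_sub_div {η x : ℝ} (hη : 0 < η) (h0 : 0 ≤ x) (h1 : x ≤ η) :
    ‖(1 : ℂ) - (x : ℂ) / η‖ ≤ 1 := by
  have h : (1 : ℂ) - (x : ℂ) / η = ((1 - x / η : ℝ) : ℂ) := by push_cast; rfl
  rw [h, Complex.norm_real, Real.norm_eq_abs, abs_le]
  have h2 : x / η ≤ 1 := by
    rw [div_le_one hη]
    exact h1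
  have h3 : 0 ≤ x / η := by positivity
  constructor <;> linarith

theorem sm_zero (r : Bool) {C : ℝ} (hC : 0 ≤ C) : Sm r C (fun _ => 0) := by
  refine ⟨fun z _ => by rw [norm_zero]; exact hC, fun z _ hne => absurd rfl hne,
    fun _ => ⟨contDiff_const, fun x => ?_⟩, fun _ => ⟨contDiff_const, fun x => ?_⟩⟩
  · rw [deriv_const, norm_zero]
    exact hC
  · rw [fderiv_fun_const, Pi.zero_apply, norm_zero]
    exact hC

theorem ind_re {η : ℝ} (f : ℂ → ℂ) (x : ℝ) :
    (Sq η).indicator f (x : ℂ) = (Icc 0 η).indicator (fun x : ℝ => f x) x := by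
  by_cases hx : x ∈ Icc 0 η
  · have h : (x : ℂ) ∈ Sq η := by
      refine Complex.mem_reProdIm.2 ⟨hx, ?_⟩
      rw [Complex.ofReal_im]
      exact ⟨le_rfl, hx.1.trans hx.2⟩
    rw [indicator_of_mem h, indicator_of_mem hx]
  · have h : (x : ℂ) ∉ Sq η := fun h => hx (Complex.mem_reProdIm.1 h).1
    rw [indicator_of_notMem h, indicator_of_notMem hx]

theorem pf_A_DR : A_DR := by
  obtain ⟨C, hC, hsm⟩ := sm_all
  have hC0 : 0 ≤ C := by linarith
  refine ⟨C, hC, fun k μ η hQ hη hηc => ?_⟩
  have hη1 : η ≤ 1 / 16 := by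
    have h1 := cc_ge k μ
    nlinarith
  have hηC : (η : ℂ) ≠ 0 := by
    rw [Complex.ofReal_ne_zero]
    exact hη.ne'
  have hdg : η ^ (-(dg true : ℝ)) = η⁻¹ := by
    have : dg true = 1 := rfl
    rw [this, Nat.cast_one, Real.rpow_neg_one]
  refine ⟨kR k μ η, aR k μ, ?_, ?_, ?_, ?_, ?_, ?_, ?_⟩
  · intro j
    fin_cases j
    · exact measurable_const.indicator (Sq_measurable η)
    · refine Measurable.indicator ?_ (Sq_measurable η)
      have : Measurable (fun s : ℂ => (s.re : ℂ)) :=
        (Complex.continuous_ofReal.comp Complex.continuous_re).measurable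
      fun_prop
    · exact measurable_const
    · exact measurable_const
  · intro j s
    rw [hdg]
    have hpos : 0 ≤ η⁻¹ := by positivity
    fin_cases j
    · show ‖(Sq η).indicator (fun _ => ((η : ℂ))⁻¹) s‖ ≤ η⁻¹
      by_cases hs : s ∈ Sq η
      · rw [indicator_of_mem hs, norm_inv, Complex.norm_real, Real.norm_eq_abs, abs_of_pos hη]
      · rw [indicator_of_notMem hs, norm_zero]
        exact hpos
    · show ‖(Sq η).indicator (fun s => -(((cc k μ : ℝ) : ℂ) * (1 - (s.re : ℂ) / η))) s‖ ≤ η⁻¹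
      by_cases hs : s ∈ Sq η
      · rw [indicator_of_mem hs, norm_neg, norm_mul, Complex.norm_real, Real.norm_eq_abs,
          abs_of_pos (cc_pos k μ)]
        obtain ⟨h1, h2⟩ := Complex.mem_reProdIm.1 hs
        have h3 := norm_one_sub_div hη h1.1 h1.2
        have h4 : cc k μ ≤ η⁻¹ := by
          rw [le_inv_comm₀ (cc_pos k μ) hη, ← one_div, le_div_iff₀ (cc_pos k μ)]
          linarith
        calc cc k μ * ‖(1 : ℂ) - (s.re : ℂ) / η‖ ≤ cc k μ * 1 :=
              mul_le_mul_of_nonneg_left h3 (cc_pos k μ).le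
          _ ≤ η⁻¹ := by rw [mul_one]; exact h4
      · rw [indicator_of_notMem hs, norm_zero]
        exact hpos
    · show ‖(0 : ℂ)‖ ≤ η⁻¹
      rw [norm_zero]
      exact hpos
    · show ‖(0 : ℂ)‖ ≤ η⁻¹
      rw [norm_zero]
      exact hpos
  · intro j s hne
    have hkey : ∀ f : ℂ → ℂ, (Sq η).indicator f s ≠ 0 → ‖s‖ ≤ 2 * η := by
      intro f hf
      by_contra h
      exact hf (indicator_of_notMem (fun hs => h (Sq_norm hs)) f)
    fin_cases j
    · exact hkey (fun _ => ((η : ℂ))⁻¹) hne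
    · exact hkey (fun s => -(((cc k μ : ℝ) : ℂ) * (1 - (s.re : ℂ) / η))) hne
    · exact absurd rfl hne
    · exact absurd rfl hne
  · intro j
    fin_cases j
    · exact cut_measurable (A := fun _ => chi) chi2_measurable
    · exact cut_measurable (A1_measurable k μ 1)
    · exact measurable_const
    · exact measurable_const
  · intro j b _ hb
    fin_cases j
    · exact cut_sm (A := fun _ => chi) hb (hsm true true k μ b hQ hb).1
    · exact cut_sm hb (hsm true true k μ b hQ hb).2.1
    · exact sm_zero true hC0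
    · exact sm_zero true hC0
  · intro j b z
    fin_cases j
    · exact cut_bound hC0 (fun b hb => (hsm false true k μ b hQ hb).1) b z
    · exact cut_bound hC0 (fun b hb => (hsm false true k μ b hQ hb).2.1) b z
    · exact ⟨by show ‖(0 : ℂ)‖ ≤ C; rw [norm_zero]; exact hC0, fun h => absurd rfl h⟩
    · exact ⟨by show ‖(0 : ℂ)‖ ≤ C; rw [norm_zero]; exact hC0, fun h => absurd rfl h⟩
  · intro b p _ _ hb hp1 hp2
    have hz : ∀ x ∈ Icc 0 η, 7 / 8 ≤ ‖p + (x : ℂ)‖ ∧ ‖p + (x : ℂ)‖ ≤ 17 / 8 := by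
      intro x hx
      have h1 : ‖(x : ℂ)‖ ≤ 1 / 16 := by
        rw [Complex.norm_real, Real.norm_eq_abs, abs_of_nonneg hx.1]
        exact hx.2.trans hη1
      constructor
      · have h2 : ‖p‖ ≤ ‖p + (x : ℂ)‖ + ‖(x : ℂ)‖ := by
          calc ‖p‖ = ‖(p + (x : ℂ)) - (x : ℂ)‖ := by congr 1; ring
            _ ≤ _ := norm_sub_le _ _
        linarith
      · have h2 := norm_add_le p (x : ℂ)
        linarith
    have hz2 : ∀ x ∈ Icc 0 η, (1 : ℝ) / 2 < ‖p + (x : ℂ)‖ := fun x hx =>
      lt_of_lt_of_le (by norm_num) (hz x hx).1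
    have hγ : ∀ x : ℝ, HasDerivAt (fun x : ℝ => p + (x : ℂ)) 1 x := fun x =>
      (Complex.ofRealCLM.hasDerivAt (x := x)).const_add p
    have hcγ : ContinuousOn (fun x : ℝ => p + (x : ℂ)) (Icc 0 η) := by fun_prop
    have hcF : ContinuousOn (fun x : ℝ => FF k μ b (p + x)) (Icc 0 η) :=
      (FF_continuousOn hb).comp hcγ hz2
    have hcF' : ContinuousOn (fun x : ℝ => aa k μ b 1 (p + x) * FF k μ b (p + x)) (Icc 0 η) :=
      ((aa_continuousOn hb 1).comp hcγ hz2).mul hcF
    have hftc := ftc hη (fun t ht => FF_deriv (k := k) (μ := μ) hb (hγ t) (hz2 t ht)) hcF'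
    have hsum : ∑ j : Fin 4, ∫ s, kR k μ η j s *
        (aR k μ j b (p + s) * Gm k μ (1 + b / (p + s))) ∂mz true =
        ∫ t in (0 : ℝ)..η, (((η : ℂ))⁻¹ * FF k μ b (p + t) - (1 - (t : ℂ) / η) *
          (aa k μ b 1 (p + t) * FF k μ b (p + t))) := by
      rw [Fin.sum_univ_four]
      have e2 : ∫ s, kR k μ η 2 s * (aR k μ 2 b (p + s) * Gm k μ (1 + b / (p + s))) ∂mz true =
          0 := by
        have : (fun s => kR k μ η 2 s * (aR k μ 2 b (p + s) * Gm k μ (1 + b / (p + s)))) =
            fun _ => (0 : ℂ) := funext fun s => zero_mul _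
        rw [this, integral_zero]
      have e3 : ∫ s, kR k μ η 3 s * (aR k μ 3 b (p + s) * Gm k μ (1 + b / (p + s))) ∂mz true =
          0 := by
        have : (fun s => kR k μ η 3 s * (aR k μ 3 b (p + s) * Gm k μ (1 + b / (p + s)))) =
            fun _ => (0 : ℂ) := funext fun s => zero_mul _
        rw [this, integral_zero]
      have e0 : ∫ s, kR k μ η 0 s * (aR k μ 0 b (p + s) * Gm k μ (1 + b / (p + s))) ∂mz true =
          ∫ t in (0 : ℝ)..η, ((η : ℂ))⁻¹ * FF k μ b (p + t) := by
        rw [int_mz_true, intervalIntegral.integral_of_le hη.le, ← integral_Icc_eq_integral_Ioc,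
          ← integral_indicator measurableSet_Icc]
        refine integral_congr_ae (ae_of_all _ fun x => ?_)
        show (Sq η).indicator (fun _ => ((η : ℂ))⁻¹) (x : ℂ) * (cut (fun _ => chi) b (p + x) *
          Gm k μ (1 + b / (p + x))) = _
        rw [ind_re]
        by_cases hx : x ∈ Icc 0 η
        · rw [indicator_of_mem hx, indicator_of_mem hx, cut_of hb, chi_one (hz x hx).1 (hz x hx).2,
            one_mul]
          rfl
        · rw [indicator_of_notMem hx, indicator_of_notMem hx, zero_mul]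
      have e1 : ∫ s, kR k μ η 1 s * (aR k μ 1 b (p + s) * Gm k μ (1 + b / (p + s))) ∂mz true =
          ∫ t in (0 : ℝ)..η, -((1 - (t : ℂ) / η) * (aa k μ b 1 (p + t) * FF k μ b (p + t))) := by
        rw [int_mz_true, intervalIntegral.integral_of_le hη.le, ← integral_Icc_eq_integral_Ioc,
          ← integral_indicator measurableSet_Icc]
        refine integral_congr_ae (ae_of_all _ fun x => ?_)
        show (Sq η).indicator (fun s => -(((cc k μ : ℝ) : ℂ) * (1 - (s.re : ℂ) / η))) (x : ℂ) *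
          (cut (A1 k μ 1) b (p + x) * Gm k μ (1 + b / (p + x))) = _
        rw [ind_re]
        by_cases hx : x ∈ Icc 0 η
        · rw [indicator_of_mem hx, indicator_of_mem hx, cut_of hb]
          unfold A1
          rw [chi_one (hz x hx).1 (hz x hx).2, one_mul, Complex.ofReal_re]
          have hc := cc_ne k μ
          show _ = -((1 - (x : ℂ) / η) * (aa k μ b 1 (p + x) * Gm k μ (1 + b / (p + x))))
          field_simp
        · rw [indicator_of_notMem hx, indicator_of_notMem hx, zero_mul]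
      rw [e0, e1, e2, e3, add_zero, add_zero, ← intervalIntegral.integral_add]
      · refine intervalIntegral.integral_congr fun t _ => ?_
        ring
      · refine ContinuousOn.intervalIntegrable ?_
        rw [uIcc_of_le hη.le]
        exact continuousOn_const.mul hcF
      · refine ContinuousOn.intervalIntegrable ?_
        rw [uIcc_of_le hη.le]
        refine ContinuousOn.neg (ContinuousOn.mul ?_ hcF')
        fun_prop
    rw [hsum, hftc]
    show Gm k μ (1 + b / p) = FF k μ b (p + ((0 : ℝ) : ℂ))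
    rw [Complex.ofReal_zero, add_zero]
    rfl

end Pool.Agent.H77.BH
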