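import Pool.Agent.H77.BH.Core

/-!
# The hybrid bound of Burgess: (J) the bounds for the local integrals
-/

set_option autoImplicit false
set_option linter.unusedVariables false

open MeasureTheory Set Filter Complex
open scoped ENNReal Topology

namespace Pool.Agent.H77.BH

open Pool.Agent.H29.DW (dg Rl)
open Pool.Agent.H29.BH

namespace AJ

/-! ### The measure -/

theorem mz_true' : mz true = Measure.map (fun x : ℝ => (x : ℂ)) volume := by simp [mz]

theorem mz_false' : mz false = volume := by simp [mz]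

theorem emb : MeasurableEmbedding (fun x : ℝ => (x : ℂ)) :=
  Complex.isometry_ofReal.isClosedEmbedding.measurableEmbedding

theorem ae_Rl (r : Bool) : ∀ᵐ z ∂mz r, Rl r z := by
  cases r
  · exact ae_of_all _ fun z h => by cases h
  · rw [mz_true', emb.ae_map_iff]
    exact ae_of_all _ fun x _ => Complex.ofReal_im x

theorem mz_ball (r : Bool) {R : ℝ} (hR : 0 ≤ R) :
    mz r (Metric.closedBall 0 R) ≤ ENNReal.ofReal (2 * R + 4 * R ^ 2) := by
  cases r
  · rw [mz_false', Complex.volume_closedBall]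
    have h1 : (ENNReal.ofReal R ^ 2 * (NNReal.pi : ℝ≥0∞)) = ENNReal.ofReal (R ^ 2 * Real.pi) := by
      rw [ENNReal.ofReal_mul (by positivity), ENNReal.ofReal_pow hR]
      congr 1
      rw [← NNReal.coe_real_pi, ENNReal.ofReal_coe_nnreal]
    rw [h1]
    refine ENNReal.ofReal_le_ofReal ?_
    have h2 := Real.pi_lt_four
    nlinarith [sq_nonneg R]
  · rw [mz_true', emb.map_apply]
    have h1 : (fun x : ℝ => (x : ℂ)) ⁻¹' (Metric.closedBall 0 R) = Icc (-R) R := by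
      ext x
      rw [mem_preimage, mem_closedBall_zero_iff, Complex.norm_real, Real.norm_eq_abs, abs_le,
        mem_Icc]
    rw [h1, Real.volume_Icc]
    refine ENNReal.ofReal_le_ofReal ?_
    nlinarith [sq_nonneg R]

/-! ### Products -/

theorem sm_nonneg {r : Bool} {B : ℝ} {g : ℂ → ℂ} (h : Sm r B g) : 0 ≤ B :=
  (norm_nonneg _).trans (h.bound 0 fun _ => Complex.zero_im)

theorem sm_mul {r : Bool} {B B' : ℝ} {g g' : ℂ → ℂ} (h : Sm r B g) (h' : Sm r B' g') :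
    Sm r (2 * (B * B')) (fun z => g z * g' z) := by
  have hB := sm_nonneg h
  have hB' := sm_nonneg h'
  have hBB := mul_nonneg hB hB'
  refine ⟨fun z hz => ?_, fun z hz hne => ?_, fun hr => ⟨?_, fun x => ?_⟩,
    fun hr => ⟨?_, fun x => ?_⟩⟩
  · rw [norm_mul]
    have h1 := mul_le_mul (h.bound z hz) (h'.bound z hz) (norm_nonneg _) hB
    linarith
  · exact h.supp z hz fun h2 => hne (by rw [h2, zero_mul])
  · exact (h.real hr).1.mul (h'.real hr).1
  · have h1 : DifferentiableAt ℝ (fun x : ℝ => g x) x := (h.real hr).1.differentiable_one x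
    have h2 : DifferentiableAt ℝ (fun x : ℝ => g' x) x := (h'.real hr).1.differentiable_one x
    have h3 := (h1.hasDerivAt.fun_mul h2.hasDerivAt).deriv
    rw [h3]
    refine (norm_add_le _ _).trans ?_
    rw [norm_mul, norm_mul]
    have h4 := mul_le_mul ((h.real hr).2 x) (h'.bound x fun _ => Complex.ofReal_im x)
      (norm_nonneg _) hB
    have h5 := mul_le_mul (h.bound x fun _ => Complex.ofReal_im x) ((h'.real hr).2 x)
      (norm_nonneg _) hB
    linarith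
  · exact (h.cplx hr).1.mul (h'.cplx hr).1
  · have hrz : Rl r x := fun h6 => by rw [hr] at h6; cases h6
    have h1 : DifferentiableAt ℝ g x := (h.cplx hr).1.differentiable_one x
    have h2 : DifferentiableAt ℝ g' x := (h'.cplx hr).1.differentiable_one x
    have h3 := (h1.hasFDerivAt.fun_mul h2.hasFDerivAt).fderiv
    rw [h3]
    refine (norm_add_le _ _).trans ?_
    rw [norm_smul, norm_smul]
    have h4 := mul_le_mul (h.bound x hrz) ((h'.cplx hr).2 x) (norm_nonneg _) hB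
    have h5 := mul_le_mul (h'.bound x hrz) ((h.cplx hr).2 x) (norm_nonneg _) hB'
    linarith

/-! ### The trivial bound -/

theorem norm_Gm_le {k : ℤ} {μ w : ℂ} (hμ : |μ.re| ≤ 8) (h1 : 3 / 4 ≤ ‖w‖) (h2 : ‖w‖ ≤ 5 / 4) :
    ‖Gm k μ w‖ ≤ Real.exp 8 := by
  have hpos : 0 < ‖w‖ := by linarith
  unfold Gm
  rw [norm_mul, norm_zpow, norm_div, Complex.norm_real, norm_norm, div_self hpos.ne', one_zpow,
    one_mul, Complex.norm_exp, Complex.re_mul_ofReal]
  refine Real.exp_le_exp.2 ?_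
  have h3 : |Real.log ‖w‖| ≤ 1 := by
    rw [abs_le]
    constructor
    · have h4 := Real.one_sub_inv_le_log_of_pos hpos
      have h5 : ‖w‖⁻¹ ≤ 2 := by
        rw [inv_le_comm₀ hpos (by norm_num)]
        linarith
      linarith
    · have h4 := Real.log_le_sub_one_of_pos hpos
      linarith
  calc μ.re * Real.log ‖w‖ ≤ |μ.re * Real.log ‖w‖| := le_abs_self _
    _ = |μ.re| * |Real.log ‖w‖| := abs_mul _ _
    _ ≤ 8 * 1 := mul_le_mul hμ h3 (abs_nonneg _) (by norm_num)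
    _ = 8 := by norm_num

theorem w_bounds {b z : ℂ} (hb : ‖b‖ ≤ 1 / 8) (hz : 1 / 2 ≤ ‖z‖) :
    3 / 4 ≤ ‖1 + b / z‖ ∧ ‖1 + b / z‖ ≤ 5 / 4 := by
  have h1 : ‖b / z‖ ≤ 1 / 4 := by
    rw [norm_div, div_le_iff₀ (by linarith)]
    linarith
  constructor
  · have h2 : ‖(1 : ℂ)‖ ≤ ‖1 + b / z‖ + ‖b / z‖ := by
      calc ‖(1 : ℂ)‖ = ‖(1 + b / z) - b / z‖ := by congr 1; ring
        _ ≤ _ := norm_sub_le _ _
    rw [norm_one] at h2
    linarith
  · have h2 := norm_add_le (1 : ℂ) (b / z)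
    rw [norm_one] at h2
    linarith

theorem norm_g4_le {k : ℤ} {μ z : ℂ} {b : Fin 4 → ℂ} (hμ : |μ.re| ≤ 8) (hb : ∀ i, ‖b i‖ ≤ 1 / 8)
    (hz : 1 / 2 ≤ ‖z‖) : ‖g4 k μ b z‖ ≤ Real.exp 8 ^ 4 := by
  have h : ∀ i, ‖Gm k μ (1 + b i / z)‖ ≤ Real.exp 8 := fun i =>
    norm_Gm_le hμ (w_bounds (hb i) hz).1 (w_bounds (hb i) hz).2
  have he := (Real.exp_pos 8).le
  unfold g4
  rw [norm_mul, norm_mul, norm_mul, RCLike.norm_conj, RCLike.norm_conj]
  have h1 := mul_le_mul (h 0) (h 1) (norm_nonneg _) he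
  have h2 := mul_le_mul h1 (h 2) (norm_nonneg _) (mul_nonneg he he)
  have h3 := mul_le_mul h2 (h 3) (norm_nonneg _) (mul_nonneg (mul_nonneg he he) he)
  calc _ ≤ _ := h3
    _ = Real.exp 8 ^ 4 := by ring

theorem trivial_bound {r : Bool} {k : ℤ} {μ : ℂ} {B : ℝ} {g : ℂ → ℂ} {b : Fin 4 → ℂ}
    (hQ : Qp r k μ) (hg : Sm r B g) (hb : ∀ i, ‖b i‖ ≤ 1 / 8) :
    ‖∫ z, g z * g4 k μ b z ∂mz r‖ ≤ 42 * Real.exp 8 ^ 4 * B := by
  have hB := sm_nonneg hg
  set K : ℝ := B * Real.exp 8 ^ 4 with hK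
  have hK0 : 0 ≤ K := by positivity
  have hfin : mz r (Metric.closedBall 0 3) ≠ ∞ :=
    ne_of_lt (lt_of_le_of_lt (mz_ball r (by norm_num)) ENNReal.ofReal_lt_top)
  have hint : Integrable ((Metric.closedBall (0 : ℂ) 3).indicator fun _ => K) (mz r) :=
    (integrable_indicator_iff measurableSet_closedBall).2 (integrableOn_const hfin)
  have hle : ∀ᵐ z ∂mz r, ‖g z * g4 k μ b z‖ ≤ (Metric.closedBall (0 : ℂ) 3).indicator
      (fun _ => K) z := by
    filter_upwards [ae_Rl r] with z hz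
    by_cases h0 : g z = 0
    · rw [h0, zero_mul, norm_zero]
      exact indicator_nonneg (fun _ _ => hK0) _
    · obtain ⟨h1, h2⟩ := hg.supp z hz h0
      rw [indicator_of_mem (mem_closedBall_zero_iff.2 h2), norm_mul]
      exact mul_le_mul (hg.bound z hz) (norm_g4_le hQ.re hb h1) (norm_nonneg _) hB
  refine (norm_integral_le_of_norm_le hint hle).trans ?_
  rw [integral_indicator measurableSet_closedBall, setIntegral_const, smul_eq_mul]
  have h3 : (mz r).real (Metric.closedBall 0 3) ≤ 42 := by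
    refine ENNReal.toReal_le_of_le_ofReal (by norm_num) ((mz_ball r (by norm_num)).trans ?_)
    exact ENNReal.ofReal_le_ofReal (by norm_num)
  calc (mz r).real (Metric.closedBall 0 3) * K ≤ 42 * K := mul_le_mul_of_nonneg_right h3 hK0
    _ = 42 * Real.exp 8 ^ 4 * B := by rw [hK]; ring

/-! ### The integral over `β` -/

/-- the amplitude -/
noncomputable def PA (A : ℂ → ℂ → ℂ) (h : Fin 4 → ℂ) (β z : ℂ) : ℂ :=
  A (β + h 0) z * A (β + h 1) z * (starRingEnd ℂ) (A (β + h 2) z) *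
    (starRingEnd ℂ) (A (β + h 3) z)

theorem Jv_eq (r : Bool) (k : ℤ) (μ : ℂ) (A : ℂ → ℂ → ℂ) (h : Fin 4 → ℂ) :
    Jv r k μ A h = ∫⁻ β, ENNReal.ofReal
      ‖∫ z, PA A h β z * g4 k μ (fun i => β + h i) z ∂mz r‖ ∂mz r := rfl

theorem inner_zero {r : Bool} {k : ℤ} {μ : ℂ} {A : ℂ → ℂ → ℂ} {h : Fin 4 → ℂ} {β : ℂ}
    (hA : ∀ b z, A b z ≠ 0 → ‖b‖ ≤ 1 / 8) (i : Fin 4) (hi : 1 / 8 < ‖β + h i‖) :
    ∫ z, PA A h β z * g4 k μ (fun i => β + h i) z ∂mz r = 0 := by
  have h0 : ∀ z, A (β + h i) z = 0 := by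
    intro z
    by_contra h1
    exact absurd (hA _ _ h1) (not_le.2 hi)
  have h1 : (fun z => PA A h β z * g4 k μ (fun i => β + h i) z) = fun _ => 0 := by
    funext z
    have h2 : PA A h β z = 0 := by
      unfold PA
      fin_cases i
      · have : A (β + h 0) z = 0 := h0 z
        rw [this]
        ring
      · have : A (β + h 1) z = 0 := h0 z
        rw [this]
        ring
      · have : A (β + h 2) z = 0 := h0 z
        rw [this, map_zero]
        ring
      · have : A (β + h 3) z = 0 := h0 z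
        rw [this, map_zero]
        ring
    rw [h2, zero_mul]
  rw [h1, integral_zero]

theorem Jv_le {r : Bool} {k : ℤ} {μ : ℂ} {A : ℂ → ℂ → ℂ} {h : Fin 4 → ℂ} {M : ℝ}
    (hA : ∀ b z, A b z ≠ 0 → ‖b‖ ≤ 1 / 8) (h0 : h 0 = 0)
    (hM : ∀ β, Rl r β → (∀ i, ‖β + h i‖ ≤ 1 / 8) →
      ‖∫ z, PA A h β z * g4 k μ (fun i => β + h i) z ∂mz r‖ ≤ M) :
    Jv r k μ A h ≤ ENNReal.ofReal M := by
  rw [Jv_eq]
  have h1 : ∀ᵐ β ∂mz r, ENNReal.ofReal
      ‖∫ z, PA A h β z * g4 k μ (fun i => β + h i) z ∂mz r‖ ≤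
      (Metric.closedBall (0 : ℂ) (1 / 8)).indicator (fun _ => ENNReal.ofReal M) β := by
    filter_upwards [ae_Rl r] with β hβ
    by_cases hall : ∀ i, ‖β + h i‖ ≤ 1 / 8
    · have h2 : ‖β‖ ≤ 1 / 8 := by
        have := hall 0
        rwa [h0, add_zero] at this
      rw [indicator_of_mem (mem_closedBall_zero_iff.2 h2)]
      exact ENNReal.ofReal_le_ofReal (hM β hβ hall)
    · push Not at hall
      obtain ⟨i, hi⟩ := hall
      rw [inner_zero hA i hi, norm_zero, ENNReal.ofReal_zero]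
      exact zero_le
  refine (lintegral_mono_ae h1).trans ?_
  rw [lintegral_indicator measurableSet_closedBall, setLIntegral_const]
  have h2 : mz r (Metric.closedBall 0 (1 / 8)) ≤ 1 := by
    refine (mz_ball r (by norm_num)).trans ?_
    rw [← ENNReal.ofReal_one]
    exact ENNReal.ofReal_le_ofReal (by norm_num)
  calc ENNReal.ofReal M * mz r (Metric.closedBall 0 (1 / 8)) ≤ ENNReal.ofReal M * 1 := by
        gcongr
    _ = ENNReal.ofReal M := mul_one _

theorem PA_sm {r : Bool} {A : ℂ → ℂ → ℂ} {h : Fin 4 → ℂ} {B : ℝ} {β : ℂ}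
    (hS : ∀ b, Rl r b → ‖b‖ ≤ 1 / 8 → Sm r B (A b)) (hR : ∀ i, Rl r (β + h i))
    (hb : ∀ i, ‖β + h i‖ ≤ 1 / 8) : Sm r (8 * B ^ 4) (PA A h β) := by
  have h1 : ∀ i, Sm r B (A (β + h i)) := fun i => hS _ (hR i) (hb i)
  have h2 := sm_mul (sm_mul (h1 0) (h1 1)) (sm_mul (sm_conj (h1 2)) (sm_conj (h1 3)))
  refine sm_mono (sm_congr h2 fun z => ?_) (le_of_eq ?_)
  · unfold PA
    ring
  · ring

theorem Rl_add {r : Bool} {z w : ℂ} (hz : Rl r z) (hw : Rl r w) : Rl r (z + w) := by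
  intro h
  rw [Complex.add_im, hz h, hw h, add_zero]

theorem cx_shift (h : Fin 4 → ℂ) (β : ℂ) : cx (fun i => β + h i) = cx h := by
  unfold cx
  simp only [add_sub_add_left_eq_sub]

theorem cx_nonneg (h : Fin 4 → ℂ) : 0 ≤ cx h := by
  unfold cx
  positivity

theorem cx_le_one {b : Fin 4 → ℂ} (hb : ∀ i, ‖b i‖ ≤ 1 / 8) : cx b ≤ 1 := by
  have h1 : ∀ i j, ‖b i - b j‖ ≤ 1 := fun i j =>
    (norm_sub_le _ _).trans (by linarith [hb i, hb j])
  unfold cx
  refine mul_le_one₀ (mul_le_one₀ (mul_le_one₀ (h1 0 2) (norm_nonneg _) (h1 0 3))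
    (norm_nonneg _) (h1 1 2)) (norm_nonneg _) (h1 1 3)

theorem cc_one_le (k : ℤ) (μ : ℂ) : 1 ≤ cc k μ := by
  unfold cc
  have h1 := abs_nonneg μ.im
  have h2 := abs_nonneg (k : ℝ)
  linarith

/-- the symmetry of `g4` -/
theorem g4_comm (k : ℤ) (μ : ℂ) (b b' : Fin 4 → ℂ)
    (h : (b' 0 = b 0 ∧ b' 1 = b 1) ∨ (b' 0 = b 1 ∧ b' 1 = b 0))
    (h' : (b' 2 = b 2 ∧ b' 3 = b 3) ∨ (b' 2 = b 3 ∧ b' 3 = b 2)) (z : ℂ) :
    g4 k μ b z = g4 k μ b' z := by
  unfold g4
  rcases h with ⟨e1, e2⟩ | ⟨e1, e2⟩ <;> rcases h' with ⟨e3, e4⟩ | ⟨e3, e4⟩ <;>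
    rw [e1, e2, e3, e4] <;> ring

end AJ

open AJ in
/-- (J) the bounds for the local integrals. -/
theorem pf_A_J (hIR : A_IR) (hIC : A_IC) (hI2 : A_I2) : A_J := by
  intro ε hε hε'
  obtain ⟨C₁, hC₁, h1⟩ := hIR
  obtain ⟨C₂, hC₂, h2⟩ := hIC ε hε hε'
  obtain ⟨C₃, hC₃, h3⟩ := hI2
  have hE : 0 < Real.exp 8 := Real.exp_pos 8
  set C : ℝ := 1 + 336 * Real.exp 8 ^ 4 + 8 * C₁ + 8 * C₂ + 8 * C₃ with hC
  have hE4 : 0 < Real.exp 8 ^ 4 := by positivity
  refine ⟨C, by rw [hC]; linarith, fun r k μ B A h hQ hB hS hA hR h0 => ?_⟩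
  have hB4 : 0 < B ^ 4 := by positivity
  -- the degenerate cases
  have hdeg : ∀ b' : Fin 4 → Fin 4, (b' 0 = 0 ∧ b' 1 = 1) ∨ (b' 0 = 1 ∧ b' 1 = 0) →
      (b' 2 = 2 ∧ b' 3 = 3) ∨ (b' 2 = 3 ∧ b' 3 = 2) → h (b' 0) = h (b' 2) →
      h (b' 1) ≠ h (b' 3) → Jv r k μ A h ≤ ENNReal.ofReal
        (C * B ^ 4 * ((cc k μ * ‖h (b' 1) - h (b' 3)‖) ^ ((dg r : ℝ) / 2))⁻¹) := by
    intro b' e1 e2 e3 e4
    refine Jv_le hA h0 fun β hβ hall => ?_
    have hRβ : ∀ i, Rl r (β + h i) := fun i => Rl_add hβ (hR i)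
    have hg := PA_sm hS hRβ hall
    have hcomm : ∀ z, g4 k μ (fun i => β + h i) z = g4 k μ (fun i => β + h (b' i)) z := by
      intro z
      refine g4_comm k μ (fun i => β + h i) (fun i => β + h (b' i)) ?_ ?_ z
      · rcases e1 with ⟨a1, a2⟩ | ⟨a1, a2⟩
        · left
          simp only [a1, a2, and_self]
        · right
          simp only [a1, a2, and_self]
      · rcases e2 with ⟨a1, a2⟩ | ⟨a1, a2⟩
        · left
          simp only [a1, a2, and_self]
        · right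
          simp only [a1, a2, and_self]
    have hkey := h3 r k μ (8 * B ^ 4) (PA A h β) (fun i => β + h (b' i)) hQ (by positivity) hg
      ⟨fun i => hRβ _, fun i => hall _⟩ (by simp only [e3]) (by
        simp only [ne_eq, add_right_inj]
        exact e4)
    simp only [add_sub_add_left_eq_sub] at hkey
    have hfun : (fun z => PA A h β z * g4 k μ (fun i => β + h i) z) =
        fun z => PA A h β z * g4 k μ (fun i => β + h (b' i)) z :=
      funext fun z => by rw [hcomm z]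
    rw [hfun]
    refine hkey.trans ?_
    refine mul_le_mul_of_nonneg_right ?_ (inv_nonneg.2 (Real.rpow_nonneg (mul_nonneg
      (by linarith [cc_one_le k μ]) (norm_nonneg _)) _))
    have : C₃ * (8 * B ^ 4) = (8 * C₃) * B ^ 4 := by ring
    rw [this]
    exact mul_le_mul_of_nonneg_right (by rw [hC]; linarith) hB4.le
  refine ⟨?_, ?_, ?_, ?_, ?_, ?_, ?_⟩
  · refine Jv_le hA h0 fun β hβ hall => ?_
    have hg := PA_sm hS (fun i => Rl_add hβ (hR i)) hall
    refine (trivial_bound hQ hg hall).trans ?_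
    have : 42 * Real.exp 8 ^ 4 * (8 * B ^ 4) = (336 * Real.exp 8 ^ 4) * B ^ 4 := by ring
    rw [this]
    exact mul_le_mul_of_nonneg_right (by rw [hC]; linarith) hB4.le
  · rintro ⟨i, hi⟩
    have h4 : Jv r k μ A h ≤ ENNReal.ofReal 0 := by
      refine Jv_le hA h0 fun β hβ hall => ?_
      exfalso
      have h5 := hall 0
      rw [h0, add_zero] at h5
      have h6 : ‖h i‖ ≤ ‖β + h i‖ + ‖β‖ := by
        calc ‖h i‖ = ‖(β + h i) - β‖ := by congr 1; ring
          _ ≤ _ := norm_sub_le _ _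
      linarith [hall i]
    rw [ENNReal.ofReal_zero] at h4
    exact le_antisymm h4 zero_le
  · intro hcx
    refine Jv_le hA h0 fun β hβ hall => ?_
    have hRβ : ∀ i, Rl r (β + h i) := fun i => Rl_add hβ (hR i)
    have hg := PA_sm hS hRβ hall
    have hcx1 : cx h ≤ 1 := by
      rw [← cx_shift h β]
      exact cx_le_one hall
    have hcx0 : 0 < cx h := lt_of_le_of_ne (cx_nonneg h) (Ne.symm hcx)
    have hcc := cc_one_le k μ
    cases r
    · have hkey := h2 k μ (8 * B ^ 4) (PA A h β) (fun i => β + h i) hQ (by positivity) hg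
        ⟨hRβ, hall⟩ (by rw [cx_shift]; exact hcx)
      rw [cx_shift] at hkey
      have e1 : ((dg false : ℕ) : ℝ) * (1 / 2 - ε) = 1 - 2 * ε := by
        have : dg false = 2 := rfl
        rw [this]
        push_cast
        ring
      have e2 : ((dg false : ℕ) : ℝ) * (1 / 4 + ε) = 1 / 2 + 2 * ε := by
        have : dg false = 2 := rfl
        rw [this]
        push_cast
        ring
      rw [e1, e2]
      refine hkey.trans ?_
      refine mul_le_mul_of_nonneg_right ?_ (inv_nonneg.2 (mul_nonneg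
        (Real.rpow_nonneg (by linarith) _) (Real.rpow_nonneg hcx0.le _)))
      have : C₂ * (8 * B ^ 4) = (8 * C₂) * B ^ 4 := by ring
      rw [this]
      exact mul_le_mul_of_nonneg_right (by rw [hC]; linarith) hB4.le
    · have hkey := h1 k μ (8 * B ^ 4) (PA A h β) (fun i => β + h i) hQ (by positivity) hg
        ⟨hRβ, hall⟩ (by rw [cx_shift]; exact hcx)
      rw [cx_shift] at hkey
      have e1 : ((dg true : ℕ) : ℝ) * (1 / 2 - ε) = 1 / 2 - ε := by
        have : dg true = 1 := rfl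
        rw [this]
        push_cast
        ring
      have e2 : ((dg true : ℕ) : ℝ) * (1 / 4 + ε) = 1 / 4 + ε := by
        have : dg true = 1 := rfl
        rw [this]
        push_cast
        ring
      rw [e1, e2]
      have h5 : cc k μ ^ (1 / 2 - ε) ≤ cc k μ ^ (1 / 2 : ℝ) :=
        Real.rpow_le_rpow_of_exponent_le hcc (by linarith)
      have h6 : cx h ^ (1 / 4 + ε) ≤ cx h ^ (1 / 4 : ℝ) :=
        Real.rpow_le_rpow_of_exponent_ge hcx0 hcx1 (by linarith)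
      have h7 : 0 < cc k μ ^ (1 / 2 - ε) := Real.rpow_pos_of_pos (by linarith) _
      have h8 : 0 < cx h ^ (1 / 4 + ε) := Real.rpow_pos_of_pos hcx0 _
      have h9 : (cc k μ ^ (1 / 2 : ℝ) * cx h ^ (1 / 4 : ℝ))⁻¹ ≤
          (cc k μ ^ (1 / 2 - ε) * cx h ^ (1 / 4 + ε))⁻¹ :=
        inv_anti₀ (mul_pos h7 h8) (mul_le_mul h5 h6 h8.le (Real.rpow_nonneg (by linarith) _))
      refine hkey.trans ?_
      refine mul_le_mul ?_ h9 (inv_nonneg.2 (mul_nonneg
        (Real.rpow_nonneg (by linarith) _) (Real.rpow_nonneg hcx0.le _))) (by positivity)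
      have : C₁ * (8 * B ^ 4) = (8 * C₁) * B ^ 4 := by ring
      rw [this]
      exact mul_le_mul_of_nonneg_right (by rw [hC]; linarith) hB4.le
  · exact fun e1 e2 => hdeg ![0, 1, 2, 3] (Or.inl ⟨rfl, rfl⟩) (Or.inl ⟨rfl, rfl⟩) e1 e2
  · exact fun e1 e2 => hdeg ![0, 1, 3, 2] (Or.inl ⟨rfl, rfl⟩) (Or.inr ⟨rfl, rfl⟩) e1 e2
  · exact fun e1 e2 => hdeg ![1, 0, 2, 3] (Or.inr ⟨rfl, rfl⟩) (Or.inl ⟨rfl, rfl⟩) e1 e2
  · exact fun e1 e2 => hdeg ![1, 0, 3, 2] (Or.inr ⟨rfl, rfl⟩) (Or.inr ⟨rfl, rfl⟩) e1 e2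

end Pool.Agent.H77.BH
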