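import Pool.Agent.H29.BH.Targets3
import Pool.Agent.H92.RC.ID

/-!
# The hybrid bound of Burgess: (MU) the weighted number of points for the multiples
-/

set_option autoImplicit false
set_option linter.unusedVariables false

open NumberField NumberField.InfinitePlace NumberField.Units
  NumberField.Units.dirichletUnitTheorem MeasureTheory Set Filter Complex
open scoped nonZeroDivisors ENNReal

namespace Pool.Agent.H77.BH

open Pool.Agent.H25.HK Pool.Agent.H23.LB Pool.Agent.H23.LC Pool.Agent.H29.DW Pool.Agent.H29.BH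
open Pool.Agent.H28.RC (Rep ft idl)
open Pool.Agent.H29.TC (dvs cq LC Gn MC)

section

variable {K : Type} [Field K] [NumberField K]

/-- the ideals of a point of the multiple -/
theorem idl_mult {L : FI K} (hL : L ≠ 0) {a : Ideal (𝓞 K)} (ha : a ≠ ⊥) {x : K}
    (hx : x ∈ (a : FI K) * L) : x ∈ L ∧ idl K L x = a * idl K ((a : FI K) * L) x := by
  refine ⟨Pool.Agent.H92.RC.coe_mul_le L a hx, ?_⟩
  have hJM : (a : FI K) * L ≠ 0 := by
    refine mul_ne_zero ?_ hL
    simpa using ha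
  apply Pool.Agent.H92.RC.idl_unique L hL
  rw [FractionalIdeal.coeIdeal_mul, mul_comm (a : FI K), mul_assoc]
  exact Pool.Agent.H92.RC.idl_mul _ hJM hx

theorem wf_mult {L : FI K} (hL : L ≠ 0) {a f : Ideal (𝓞 K)} (ha : a ≠ ⊥) (haf : a ⊔ f = ⊤) {x : K}
    (hx : x ∈ (a : FI K) * L) : wf K f ((a : FI K) * L) x = wf K f L x := by
  unfold wf
  rw [(idl_mult hL ha hx).2]
  congr 1
  rw [Ideal.sup_mul_eq_of_coprime_left (by rw [sup_comm]; exact haf)]

theorem nv_le_one {y : InfinitePlace K → ℝ} {x : K} (h : ∀ v, ‖sy y x v‖ ≤ 1) : nv y x ≤ 1 := by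
  unfold nv
  exact Finset.prod_le_one (fun v _ => by positivity) fun v _ =>
    pow_le_one₀ (norm_nonneg _) (h v)

end

open scoped Classical in
theorem pf_R_MU (hNV : K_NV) (hDV : Pool.Agent.H29.TC.T_DV) (hDF : Pool.Agent.H29.TC.T_DF) :
    R_MU := by
  intro n hn ε hε hε1
  obtain ⟨C, hC⟩ := hDV n ε hε
  refine ⟨max C 1, le_max_right _ _, fun K _ _ hK f A S hf hS L y hL => ?_⟩
  obtain ⟨hbt, hnv, hnv1, -, -, -⟩ := hNV K L y hL
  set W : K → ℝ≥0∞ := fun h => if h ∈ L ∧ h ≠ 0 ∧ ∀ v, ‖sy y h v‖ ≤ 1 then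
    ENNReal.ofReal (wf K f L h * nv y h ^ (-(3 / 4) : ℝ)) else 0 with hW
  have h1 : ∀ a ∈ S, gs f ((a : FI K) * L) y =
      ∑' h : K, if h ∈ (a : FI K) * L then W h else 0 := by
    intro a ha
    unfold gs
    refine tsum_congr fun h => ?_
    by_cases hh : h ∈ (a : FI K) * L
    · rw [if_pos hh, wf_mult hL (hS.ne a ha) (hS.cop a ha) hh]
      simp only [hW]
      by_cases h2 : h ≠ 0 ∧ ∀ v, ‖sy y h v‖ ≤ 1
      · rw [if_pos ⟨hh, h2⟩, if_pos ⟨(idl_mult hL (hS.ne a ha) hh).1, h2⟩]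
      · rw [if_neg fun h3 => h2 h3.2, if_neg fun h3 => h2 h3.2]
    · rw [if_neg hh, if_neg fun h3 => hh h3.1]
  rw [Finset.sum_congr rfl h1]
  have h2 : ∑ a ∈ S, ∑' h : K, (if h ∈ (a : FI K) * L then W h else 0) =
      ∑' h : K, ∑ a ∈ S, (if h ∈ (a : FI K) * L then W h else 0) :=
    (Summable.tsum_finsetSum fun _ _ => ENNReal.summable).symm
  rw [h2]
  have h3 : gs f L y = ∑' h : K, W h := rfl
  rw [h3, ← ENNReal.tsum_mul_left]
  refine ENNReal.tsum_le_tsum fun h => ?_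
  by_cases hh : h ∈ L ∧ h ≠ 0 ∧ ∀ v, ‖sy y h v‖ ≤ 1
  · have hidl : idl K L h ≠ ⊥ := by
      intro h4
      have h5 := Pool.Agent.H92.RC.idl_mul L hL hh.1
      rw [h4, FractionalIdeal.coeIdeal_bot, zero_mul] at h5
      exact hh.2.1 (FractionalIdeal.spanSingleton_eq_zero_iff.mp h5.symm)
    have hcard : ((S.filter fun a : Ideal (𝓞 K) => h ∈ (a : FI K) * L).card : ℝ) ≤
        max C 1 * bt L y ^ ε := by
      have h4 : (S.filter fun a : Ideal (𝓞 K) => h ∈ (a : FI K) * L) ⊆ dvs K (idl K L h) := by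
        intro a ha
        rw [Finset.mem_filter] at ha
        rw [hDF K (idl K L h) hidl a, (idl_mult hL (hS.ne a ha.1) ha.2).2]
        exact Ideal.mul_le_left
      have h5 : ((S.filter fun a : Ideal (𝓞 K) => h ∈ (a : FI K) * L).card : ℝ) ≤
          ((dvs K (idl K L h)).card : ℝ) := by exact_mod_cast Finset.card_le_card h4
      have h6 := hC K hK (idl K L h) hidl
      have h7 : Nf K (idl K L h) ≤ bt L y := by
        rw [← hnv h hh.1]
        calc nv y h * bt L y ≤ 1 * bt L y :=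
              mul_le_mul_of_nonneg_right (nv_le_one hh.2.2) hbt.le
          _ = bt L y := one_mul _
      have h8 : 0 ≤ Nf K (idl K L h) := Nat.cast_nonneg _
      have h9 : Nf K (idl K L h) ^ ε ≤ bt L y ^ ε := Real.rpow_le_rpow h8 h7 hε.le
      calc _ ≤ _ := h5
        _ ≤ C * Nf K (idl K L h) ^ ε := h6
        _ ≤ max C 1 * Nf K (idl K L h) ^ ε :=
            mul_le_mul_of_nonneg_right (le_max_left _ _) (Real.rpow_nonneg h8 _)
        _ ≤ max C 1 * bt L y ^ ε :=
            mul_le_mul_of_nonneg_left h9 (le_trans zero_le_one (le_max_right _ _))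
    rw [← Finset.sum_filter, Finset.sum_const, nsmul_eq_mul]
    refine mul_le_mul_left ?_ _
    rw [← ENNReal.ofReal_natCast]
    exact ENNReal.ofReal_le_ofReal hcard
  · have h4 : W h = 0 := if_neg hh
    rw [h4, mul_zero]
    simp

end Pool.Agent.H77.BH
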