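import Pool.Agent.H29.BH.Targets1

/-!
# The hybrid bound of Burgess: separation of the variables, common part
-/

set_option autoImplicit false
set_option linter.unusedVariables false

open MeasureTheory Set Filter Complex
open scoped ENNReal Topology

namespace Pool.Agent.H77.BH

open Pool.Agent.H29.DW (dg Rl)
open Pool.Agent.H29.BH

/-! ### The cut-off function -/

noncomputable def f1 : ContDiffBump (0 : ℂ) := ⟨17 / 8, 3, by norm_num, by norm_num⟩

noncomputable def f2 : ContDiffBump (0 : ℂ) := ⟨1 / 2, 7 / 8, by norm_num, by norm_num⟩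

/-- `1` for `7/8 ≤ |z| ≤ 17/8`, `0` unless `1/2 < |z| < 3` -/
noncomputable def chi (z : ℂ) : ℂ := ((f1 z - f2 z : ℝ) : ℂ)

theorem chi_contDiff : ContDiff ℝ 1 chi := by
  unfold chi
  exact Complex.ofRealCLM.contDiff.comp (f1.contDiff.sub f2.contDiff)

theorem chi_small {z : ℂ} (h : ‖z‖ ≤ 1 / 2) : chi z = 0 := by
  unfold chi
  have h1 : f1 z = 1 := f1.one_of_mem_closedBall (by
    rw [Metric.mem_closedBall, dist_zero_right]
    exact h.trans (by norm_num [f1]))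
  have h2 : f2 z = 1 := f2.one_of_mem_closedBall (by
    rw [Metric.mem_closedBall, dist_zero_right]
    exact h)
  rw [h1, h2, sub_self, Complex.ofReal_zero]

theorem chi_large {z : ℂ} (h : 3 ≤ ‖z‖) : chi z = 0 := by
  unfold chi
  have h1 : f1 z = 0 := f1.zero_of_le_dist (by
    rw [dist_zero_right]
    exact h)
  have h2 : f2 z = 0 := f2.zero_of_le_dist (by
    rw [dist_zero_right]
    exact le_trans (by norm_num [f2]) h)
  rw [h1, h2, sub_self, Complex.ofReal_zero]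

theorem chi_one {z : ℂ} (h : 7 / 8 ≤ ‖z‖) (h' : ‖z‖ ≤ 17 / 8) : chi z = 1 := by
  unfold chi
  have h1 : f1 z = 1 := f1.one_of_mem_closedBall (by
    rw [Metric.mem_closedBall, dist_zero_right]
    exact h')
  have h2 : f2 z = 0 := f2.zero_of_le_dist (by
    rw [dist_zero_right]
    exact h)
  rw [h1, h2, sub_zero, Complex.ofReal_one]

theorem chi_ne {z : ℂ} (h : chi z ≠ 0) : 1 / 2 ≤ ‖z‖ ∧ ‖z‖ ≤ 3 := by
  constructor
  · by_contra h1
    exact h (chi_small (not_le.1 h1).le)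
  · by_contra h1
    exact h (chi_large (not_le.1 h1).le)

theorem conj_chi (z : ℂ) : (starRingEnd ℂ) (chi z) = chi z := by
  unfold chi
  rw [Complex.conj_ofReal]

/-! ### The classes `Sm` -/

theorem sm_mono {r : Bool} {B B' : ℝ} {g : ℂ → ℂ} (h : Sm r B g) (hB : B ≤ B') : Sm r B' g :=
  ⟨fun z hz => (h.bound z hz).trans hB, h.supp,
    fun hr => ⟨(h.real hr).1, fun x => ((h.real hr).2 x).trans hB⟩,
    fun hr => ⟨(h.cplx hr).1, fun x => ((h.cplx hr).2 x).trans hB⟩⟩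

theorem sm_add {r : Bool} {B B' : ℝ} {g g' : ℂ → ℂ} (h : Sm r B g) (h' : Sm r B' g') :
    Sm r (B + B') (fun z => g z + g' z) := by
  refine ⟨fun z hz => (norm_add_le _ _).trans (add_le_add (h.bound z hz) (h'.bound z hz)),
    fun z hz hne => ?_, fun hr => ⟨?_, fun x => ?_⟩, fun hr => ⟨?_, fun x => ?_⟩⟩
  · by_cases h1 : g z = 0
    · refine h'.supp z hz fun h2 => hne ?_
      rw [h1, h2, add_zero]
    · exact h.supp z hz h1
  · exact (h.real hr).1.add (h'.real hr).1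
  · have h1 : DifferentiableAt ℝ (fun x : ℝ => g x) x := (h.real hr).1.differentiable_one x
    have h2 : DifferentiableAt ℝ (fun x : ℝ => g' x) x := (h'.real hr).1.differentiable_one x
    have h3 : deriv (fun x : ℝ => g x + g' x) x =
        deriv (fun x : ℝ => g x) x + deriv (fun x : ℝ => g' x) x := deriv_fun_add h1 h2
    rw [h3]
    exact (norm_add_le _ _).trans (add_le_add ((h.real hr).2 x) ((h'.real hr).2 x))
  · exact (h.cplx hr).1.add (h'.cplx hr).1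
  · have h1 : DifferentiableAt ℝ g x := (h.cplx hr).1.differentiable_one x
    have h2 : DifferentiableAt ℝ g' x := (h'.cplx hr).1.differentiable_one x
    have h3 : fderiv ℝ (fun x => g x + g' x) x = fderiv ℝ g x + fderiv ℝ g' x :=
      fderiv_fun_add h1 h2
    rw [h3]
    exact (norm_add_le _ _).trans (add_le_add ((h.cplx hr).2 x) ((h'.cplx hr).2 x))

theorem sm_const_mul {r : Bool} {B : ℝ} {g : ℂ → ℂ} (h : Sm r B g) (c : ℂ) :
    Sm r (‖c‖ * B) (fun z => c * g z) := by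
  refine ⟨fun z hz => ?_, fun z hz hne => ?_, fun hr => ⟨?_, fun x => ?_⟩,
    fun hr => ⟨?_, fun x => ?_⟩⟩
  · rw [norm_mul]
    exact mul_le_mul_of_nonneg_left (h.bound z hz) (norm_nonneg _)
  · exact h.supp z hz fun h2 => hne (by rw [h2, mul_zero])
  · exact contDiff_const.mul (h.real hr).1
  · have h1 : DifferentiableAt ℝ (fun x : ℝ => g x) x := (h.real hr).1.differentiable_one x
    have h3 : deriv (fun x : ℝ => c * g x) x = c * deriv (fun x : ℝ => g x) x :=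
      deriv_const_mul c h1
    rw [h3, norm_mul]
    exact mul_le_mul_of_nonneg_left ((h.real hr).2 x) (norm_nonneg _)
  · exact contDiff_const.mul (h.cplx hr).1
  · have h1 : DifferentiableAt ℝ g x := (h.cplx hr).1.differentiable_one x
    have h3 : fderiv ℝ (fun x => c * g x) x = c • fderiv ℝ g x := fderiv_const_mul h1 c
    rw [h3, norm_smul]
    exact mul_le_mul_of_nonneg_left ((h.cplx hr).2 x) (norm_nonneg _)

theorem sm_conj {r : Bool} {B : ℝ} {g : ℂ → ℂ} (h : Sm r B g) :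
    Sm r B (fun z => (starRingEnd ℂ) (g z)) := by
  refine ⟨fun z hz => ?_, fun z hz hne => ?_, fun hr => ⟨?_, fun x => ?_⟩,
    fun hr => ⟨?_, fun x => ?_⟩⟩
  · rw [RCLike.norm_conj]
    exact h.bound z hz
  · exact h.supp z hz fun h2 => hne (by rw [h2, map_zero])
  · exact Complex.conjCLE.contDiff.comp (h.real hr).1
  · have h1 : DifferentiableAt ℝ (fun x : ℝ => g x) x := (h.real hr).1.differentiable_one x
    have h3 : HasDerivAt (fun x : ℝ => (starRingEnd ℂ) (g x))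
        ((starRingEnd ℂ) (deriv (fun x : ℝ => g x) x)) x := h1.hasDerivAt.star
    rw [h3.deriv, RCLike.norm_conj]
    exact (h.real hr).2 x
  · exact Complex.conjCLE.contDiff.comp (h.cplx hr).1
  · have h1 : DifferentiableAt ℝ g x := (h.cplx hr).1.differentiable_one x
    have h3 : HasFDerivAt (fun x => (starRingEnd ℂ) (g x))
        ((Complex.conjCLE : ℂ →L[ℝ] ℂ).comp (fderiv ℝ g x)) x :=
      HasFDerivAt.comp x (Complex.conjCLE : ℂ →L[ℝ] ℂ).hasFDerivAt h1.hasFDerivAt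
    rw [h3.fderiv]
    refine ContinuousLinearMap.opNorm_le_bound _ ((norm_nonneg _).trans ((h.cplx hr).2 x))
      fun d => ?_
    show ‖(starRingEnd ℂ) (fderiv ℝ g x d)‖ ≤ _
    rw [RCLike.norm_conj]
    exact (ContinuousLinearMap.le_opNorm _ _).trans
      (mul_le_mul_of_nonneg_right ((h.cplx hr).2 x) (norm_nonneg _))

theorem sm_congr {r : Bool} {B : ℝ} {g g' : ℂ → ℂ} (h : Sm r B g) (hg : ∀ z, g' z = g z) :
    Sm r B g' := by
  have : g' = g := funext hg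
  rw [this]
  exact h

/-- a smooth family of functions -/
theorem sm_base (Q : ℂ → ℂ → ℂ) (hQ : ∀ b z : ℂ, ‖b‖ < 1 / 4 → 1 / 4 < ‖z‖ →
    ContDiffAt ℝ 1 (fun q : ℂ × ℂ => Q q.1 q.2) (b, z)) :
    ∃ C : ℝ, 0 ≤ C ∧ ∀ (r : Bool) (b : ℂ), ‖b‖ ≤ 1 / 8 → Sm r C (fun z => chi z * Q b z) := by
  set H : ℂ × ℂ → ℂ := fun q => chi q.2 * Q q.1 q.2 with hH
  have hcd : ∀ b z : ℂ, ‖b‖ < 1 / 4 → ContDiffAt ℝ 1 H (b, z) := by
    intro b z hb
    rcases lt_or_ge (1 / 4) ‖z‖ with hz | hz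
    · have h1 : ContDiffAt ℝ 1 (fun q : ℂ × ℂ => chi q.2) (b, z) :=
        (chi_contDiff.comp contDiff_snd).contDiffAt
      exact h1.mul (hQ b z hb hz)
    · have h1 : H =ᶠ[𝓝 (b, z)] fun _ => 0 := by
        have hopen : IsOpen {q : ℂ × ℂ | ‖q.2‖ < 1 / 2} := isOpen_lt (by fun_prop) continuous_const
        have hmem : ((b, z) : ℂ × ℂ) ∈ {q : ℂ × ℂ | ‖q.2‖ < 1 / 2} :=
          lt_of_le_of_lt hz (by norm_num)
        filter_upwards [hopen.mem_nhds hmem] with q hq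
        show chi q.2 * Q q.1 q.2 = 0
        rw [chi_small (le_of_lt hq), zero_mul]
      exact contDiffAt_const.congr_of_eventuallyEq h1
  have hO : IsOpen {q : ℂ × ℂ | ‖q.1‖ < 1 / 4} := isOpen_lt (by fun_prop) continuous_const
  have hcO : ContDiffOn ℝ 1 H {q : ℂ × ℂ | ‖q.1‖ < 1 / 4} := fun q hq =>
    (hcd q.1 q.2 hq).contDiffWithinAt
  have hfd : ContinuousOn (fun q => fderiv ℝ H q) {q : ℂ × ℂ | ‖q.1‖ < 1 / 4} :=
    hcO.continuousOn_fderiv_of_isOpen hO le_rfl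
  have hK : IsCompact (Metric.closedBall (0 : ℂ) (1 / 8) ×ˢ Metric.closedBall (0 : ℂ) 3) :=
    (isCompact_closedBall _ _).prod (isCompact_closedBall _ _)
  have hKO : (Metric.closedBall (0 : ℂ) (1 / 8) ×ˢ Metric.closedBall (0 : ℂ) 3) ⊆
      {q : ℂ × ℂ | ‖q.1‖ < 1 / 4} := by
    rintro ⟨b, z⟩ ⟨hb, -⟩
    rw [mem_closedBall_zero_iff] at hb
    exact lt_of_le_of_lt hb (by norm_num)
  obtain ⟨C₁, hC₁⟩ := hK.exists_bound_of_continuousOn (hcO.continuousOn.mono hKO)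
  obtain ⟨C₂, hC₂⟩ := hK.exists_bound_of_continuousOn (hfd.mono hKO)
  set C : ℝ := max (max C₁ C₂) 0 with hC
  have hCnn : 0 ≤ C := le_max_right _ _
  have hb1 : ∀ b z : ℂ, ‖b‖ ≤ 1 / 8 → ‖H (b, z)‖ ≤ C := by
    intro b z hb
    rcases le_or_gt ‖z‖ 3 with hz | hz
    · exact (hC₁ (b, z) ⟨mem_closedBall_zero_iff.2 hb, mem_closedBall_zero_iff.2 hz⟩).trans
        ((le_max_left _ _).trans (le_max_left _ _))
    · show ‖chi z * Q b z‖ ≤ C
      rw [chi_large hz.le, zero_mul, norm_zero]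
      exact hCnn
  have hb2 : ∀ b z : ℂ, ‖b‖ ≤ 1 / 8 → ‖fderiv ℝ (fun z => chi z * Q b z) z‖ ≤ C := by
    intro b z hb
    rcases le_or_gt ‖z‖ 3 with hz | hz
    · have h1 : DifferentiableAt ℝ H (b, z) :=
        (hcd b z (lt_of_le_of_lt hb (by norm_num))).differentiableAt (by norm_num)
      have h2 : HasFDerivAt (fun z : ℂ => ((b, z) : ℂ × ℂ))
          ((0 : ℂ →L[ℝ] ℂ).prod (ContinuousLinearMap.id ℝ ℂ)) z :=
        (hasFDerivAt_const b z).prodMk (hasFDerivAt_id z)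
      have h3 : HasFDerivAt (fun z => chi z * Q b z) ((fderiv ℝ H (b, z)).comp
          ((0 : ℂ →L[ℝ] ℂ).prod (ContinuousLinearMap.id ℝ ℂ))) z :=
        HasFDerivAt.comp z h1.hasFDerivAt h2
      rw [h3.fderiv]
      refine ContinuousLinearMap.opNorm_le_bound _ hCnn fun d => ?_
      show ‖fderiv ℝ H (b, z) (0, d)‖ ≤ C * ‖d‖
      refine (ContinuousLinearMap.le_opNorm _ _).trans ?_
      have h4 : ‖((0, d) : ℂ × ℂ)‖ = ‖d‖ := by
        rw [Prod.norm_def, norm_zero]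
        exact max_eq_right (norm_nonneg _)
      rw [h4]
      refine mul_le_mul_of_nonneg_right ?_ (norm_nonneg _)
      exact (hC₂ (b, z) ⟨mem_closedBall_zero_iff.2 hb, mem_closedBall_zero_iff.2 hz⟩).trans
        ((le_max_right _ _).trans (le_max_left _ _))
    · have h1 : (fun z => chi z * Q b z) =ᶠ[𝓝 z] fun _ => 0 := by
        have hopen : IsOpen {w : ℂ | 3 < ‖w‖} := isOpen_lt continuous_const (by fun_prop)
        have hmem : z ∈ {w : ℂ | 3 < ‖w‖} := hz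
        filter_upwards [hopen.mem_nhds hmem] with w hw
        rw [chi_large (le_of_lt hw), zero_mul]
      rw [h1.fderiv_eq]
      simp [hCnn]
  have hcz : ∀ b : ℂ, ‖b‖ ≤ 1 / 8 → ContDiff ℝ 1 (fun z => chi z * Q b z) := by
    intro b hb
    rw [contDiff_iff_contDiffAt]
    intro z
    have h1 : ContDiffAt ℝ 1 (fun z : ℂ => ((b, z) : ℂ × ℂ)) z :=
      contDiffAt_const.prodMk contDiffAt_id
    have hb' : ‖b‖ < 1 / 4 := lt_of_le_of_lt hb (by norm_num)
    have h2 : ContDiffAt ℝ 1 H ((fun z : ℂ => ((b, z) : ℂ × ℂ)) z) := hcd b z hb'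
    have h3 := ContDiffAt.comp z h2 h1
    have h4 : (H ∘ fun z : ℂ => ((b, z) : ℂ × ℂ)) = fun z => chi z * Q b z := rfl
    rw [h4] at h3
    exact h3
  refine ⟨C, hCnn, fun r b hb => ⟨fun z _ => hb1 b z hb, fun z _ hne => ?_,
    fun _ => ⟨?_, fun x => ?_⟩, fun _ => ⟨hcz b hb, fun z => hb2 b z hb⟩⟩⟩
  · exact chi_ne fun h => hne (by rw [h, zero_mul])
  · exact (hcz b hb).comp Complex.ofRealCLM.contDiff
  · have h1 : DifferentiableAt ℝ (fun z => chi z * Q b z) (x : ℂ) :=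
      (hcz b hb).differentiable_one _
    have h2 : HasDerivAt (fun x : ℝ => (x : ℂ)) 1 x := Complex.ofRealCLM.hasDerivAt
    have h3 : HasDerivAt (fun x : ℝ => chi x * Q b x)
        (fderiv ℝ (fun z => chi z * Q b z) (x : ℂ) 1) x :=
      HasFDerivAt.comp_hasDerivAt x h1.hasFDerivAt h2
    rw [h3.deriv]
    refine (ContinuousLinearMap.le_opNorm _ _).trans ?_
    rw [norm_one, mul_one]
    exact hb2 b x hb

/-! ### The functions `q`, `q'` -/

noncomputable def qq (b z : ℂ) : ℂ := -b / (z * (z + b))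

noncomputable def q1 (b z : ℂ) : ℂ := b * (2 * z + b) / (z * (z + b)) ^ 2

theorem region {b z : ℂ} (hb : ‖b‖ < 1 / 4) (hz : 1 / 4 < ‖z‖) : z ≠ 0 ∧ z + b ≠ 0 := by
  constructor
  · rintro rfl
    rw [norm_zero] at hz
    norm_num at hz
  · intro h
    have h1 : z = -b := eq_neg_of_add_eq_zero_left h
    rw [h1, norm_neg] at hz
    linarith

theorem qq_contDiffAt {b z : ℂ} (hb : ‖b‖ < 1 / 4) (hz : 1 / 4 < ‖z‖) :
    ContDiffAt ℝ 1 (fun q : ℂ × ℂ => qq q.1 q.2) (b, z) := by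
  obtain ⟨h1, h2⟩ := region hb hz
  have h3 : ContDiffAt ℝ 1 (fun q : ℂ × ℂ => q.2 * (q.2 + q.1)) (b, z) :=
    contDiffAt_snd.mul (contDiffAt_snd.add contDiffAt_fst)
  have h4 : ContDiffAt ℝ 1 (fun q : ℂ × ℂ => -q.1) (b, z) := contDiffAt_fst.neg
  have h5 : ContDiffAt ℝ 1 (fun q : ℂ × ℂ => (q.2 * (q.2 + q.1))⁻¹) (b, z) :=
    h3.inv (mul_ne_zero h1 h2)
  exact h4.mul h5

theorem q1_contDiffAt {b z : ℂ} (hb : ‖b‖ < 1 / 4) (hz : 1 / 4 < ‖z‖) :
    ContDiffAt ℝ 1 (fun q : ℂ × ℂ => q1 q.1 q.2) (b, z) := by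
  obtain ⟨h1, h2⟩ := region hb hz
  have h3 : ContDiffAt ℝ 1 (fun q : ℂ × ℂ => (q.2 * (q.2 + q.1)) ^ 2) (b, z) :=
    (contDiffAt_snd.mul (contDiffAt_snd.add contDiffAt_fst)).pow 2
  have h4 : ContDiffAt ℝ 1 (fun q : ℂ × ℂ => q.1 * (2 * q.2 + q.1)) (b, z) :=
    contDiffAt_fst.mul ((contDiffAt_const.mul contDiffAt_snd).add contDiffAt_fst)
  have h5 : ContDiffAt ℝ 1 (fun q : ℂ × ℂ => ((q.2 * (q.2 + q.1)) ^ 2)⁻¹) (b, z) :=
    h3.inv (pow_ne_zero 2 (mul_ne_zero h1 h2))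
  exact h4.mul h5

theorem qq_hasDerivAt {b z : ℂ} (h1 : z ≠ 0) (h2 : z + b ≠ 0) :
    HasDerivAt (qq b) (q1 b z) z := by
  have h3 : HasDerivAt (fun z : ℂ => z * (z + b)) (1 * (z + b) + z * 1) z :=
    (hasDerivAt_id z).mul ((hasDerivAt_id z).add_const b)
  have h4 := (hasDerivAt_const z (-b)).fun_div h3 (mul_ne_zero h1 h2)
  refine h4.congr_deriv ?_
  unfold q1
  congr 1
  ring

/-- `log (1 + b / z)` -/
noncomputable def Lg (b z : ℂ) : ℂ := Complex.log (1 + b / z)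

theorem slit {b z : ℂ} (hb : ‖b‖ ≤ 1 / 8) (hz : 1 / 2 ≤ ‖z‖) : 1 + b / z ∈ Complex.slitPlane := by
  left
  have h1 : ‖b / z‖ ≤ 1 / 4 := by
    rw [norm_div, div_le_iff₀ (by linarith)]
    linarith
  have h2 := (abs_le.1 ((Complex.abs_re_le_norm (b / z)).trans h1)).1
  rw [Complex.add_re, Complex.one_re]
  linarith

theorem Lg_hasDerivAt {b z : ℂ} (hb : ‖b‖ ≤ 1 / 8) (hz : 1 / 2 ≤ ‖z‖) :
    HasDerivAt (Lg b) (qq b z) z := by
  obtain ⟨h1, h2⟩ := region (lt_of_le_of_lt hb (by norm_num)) (lt_of_lt_of_le (by norm_num) hz)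
  have h3 : HasDerivAt (fun z : ℂ => 1 + b / z) (-b / z ^ 2) z := by
    have h4 := ((hasDerivAt_const z b).fun_div (hasDerivAt_id z) h1).const_add 1
    refine h4.congr_deriv ?_
    simp
  have h5 := h3.clog (slit hb hz)
  refine h5.congr_deriv ?_
  unfold qq
  have h6 : 1 + b / z ≠ 0 := Complex.slitPlane_ne_zero (slit hb hz)
  field_simp

/-- the quasi-character in terms of the logarithm -/
theorem Gm_eq (k : ℤ) (μ w : ℂ) (hw : w ≠ 0) : Gm k μ w =
    cexp ((μ + k) / 2 * Complex.log w + (μ - k) / 2 * (starRingEnd ℂ) (Complex.log w)) := by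
  unfold Gm
  have hn : ((‖w‖ : ℝ) : ℂ) ≠ 0 := by
    rw [Complex.ofReal_ne_zero]
    exact norm_ne_zero_iff.2 hw
  have h1 : w / ((‖w‖ : ℝ) : ℂ) = cexp ((w.arg : ℂ) * I) := by
    rw [div_eq_iff hn, mul_comm]
    exact (Complex.norm_mul_exp_arg_mul_I w).symm
  have h2 : Complex.log w = ((Real.log ‖w‖ : ℝ) : ℂ) + (w.arg : ℂ) * I := rfl
  have h3 : (starRingEnd ℂ) (Complex.log w) = ((Real.log ‖w‖ : ℝ) : ℂ) - (w.arg : ℂ) * I := by
    rw [h2, map_add, map_mul, Complex.conj_ofReal, Complex.conj_ofReal, Complex.conj_I]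
    ring
  rw [h3, h2, h1, ← Complex.exp_int_mul, ← Complex.exp_add]
  congr 1
  ring

/-! ### Derivatives along lines -/

section

variable {k : ℤ} {μ b : ℂ} (hb : ‖b‖ ≤ 1 / 8) {γ : ℝ → ℂ} {v : ℂ} {t : ℝ}

/-- the function `Gm (1 + b / z)` -/
noncomputable def FF (k : ℤ) (μ b z : ℂ) : ℂ := Gm k μ (1 + b / z)

/-- the logarithmic derivative in the direction `v` -/
noncomputable def aa (k : ℤ) (μ b v z : ℂ) : ℂ :=
  (μ + k) / 2 * (qq b z * v) + (μ - k) / 2 * (starRingEnd ℂ) (qq b z * v)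

/-- the derivative of `aa v` in the direction `u` -/
noncomputable def bb (k : ℤ) (μ b v u z : ℂ) : ℂ :=
  (μ + k) / 2 * (q1 b z * u * v) + (μ - k) / 2 * (starRingEnd ℂ) (q1 b z * u * v)

theorem FF_eq {z : ℂ} (hb : ‖b‖ ≤ 1 / 8) (hz : 1 / 2 ≤ ‖z‖) : FF k μ b z =
    cexp ((μ + k) / 2 * Lg b z + (μ - k) / 2 * (starRingEnd ℂ) (Lg b z)) :=
  Gm_eq k μ _ (Complex.slitPlane_ne_zero (slit hb hz))

theorem FF_deriv (hb : ‖b‖ ≤ 1 / 8) (hγ : HasDerivAt γ v t) (hz : 1 / 2 < ‖γ t‖) :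
    HasDerivAt (fun t => FF k μ b (γ t)) (aa k μ b v (γ t) * FF k μ b (γ t)) t := by
  have h1 : HasDerivAt (fun t => Lg b (γ t)) (qq b (γ t) * v) t :=
    HasDerivAt.comp (h₂ := Lg b) t (Lg_hasDerivAt hb hz.le) hγ
  have h2 : HasDerivAt (fun t => (starRingEnd ℂ) (Lg b (γ t)))
      ((starRingEnd ℂ) (qq b (γ t) * v)) t := h1.star
  have h3 := ((h1.const_mul ((μ + k) / 2)).add (h2.const_mul ((μ - k) / 2))).cexp
  have h4 : (fun t => FF k μ b (γ t)) =ᶠ[𝓝 t] fun t => cexp ((μ + k) / 2 * Lg b (γ t) +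
      (μ - k) / 2 * (starRingEnd ℂ) (Lg b (γ t))) := by
    have h5 : ContinuousAt (fun t => ‖γ t‖) t := hγ.continuousAt.norm
    filter_upwards [h5.eventually (lt_mem_nhds hz)] with s hs
    exact FF_eq hb (le_of_lt hs)
  refine (h3.congr_of_eventuallyEq h4).congr_deriv ?_
  rw [FF_eq hb hz.le]
  unfold aa
  rw [mul_comm]
  rfl

theorem aa_deriv (hb : ‖b‖ ≤ 1 / 8) (hγ : HasDerivAt γ v t) (hz : 1 / 2 < ‖γ t‖) (u : ℂ) :
    HasDerivAt (fun t => aa k μ b u (γ t)) (bb k μ b u v (γ t)) t := by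
  obtain ⟨h1, h2⟩ := region (lt_of_le_of_lt hb (by norm_num)) (lt_trans (by norm_num) hz)
  have h3 : HasDerivAt (fun t => qq b (γ t) * u) (q1 b (γ t) * v * u) t :=
    (HasDerivAt.comp t (qq_hasDerivAt h1 h2) hγ).mul_const u
  have h4 : HasDerivAt (fun t => (starRingEnd ℂ) (qq b (γ t) * u))
      ((starRingEnd ℂ) (q1 b (γ t) * v * u)) t := h3.star
  exact (h3.const_mul ((μ + k) / 2)).add (h4.const_mul ((μ - k) / 2))

end

end Pool.Agent.H77.BH
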