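import Pool.Agent.H77.BH.Core

/-!
# The hybrid bound of Burgess: separation of the variables, common part 2
-/

set_option autoImplicit false
set_option linter.unusedVariables false

open MeasureTheory Set Filter Complex
open scoped ENNReal Topology

namespace Pool.Agent.H77.BH

open Pool.Agent.H29.DW (dg Rl)
open Pool.Agent.H29.BH

/-! ### Continuity -/

theorem Lg_continuousOn {b : ℂ} (hb : ‖b‖ ≤ 1 / 8) :
    ContinuousOn (Lg b) {z | 1 / 2 < ‖z‖} := fun z hz =>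
  (Lg_hasDerivAt hb (le_of_lt hz)).continuousAt.continuousWithinAt

theorem FF_continuousOn {k : ℤ} {μ b : ℂ} (hb : ‖b‖ ≤ 1 / 8) :
    ContinuousOn (FF k μ b) {z | 1 / 2 < ‖z‖} := by
  have h1 := Lg_continuousOn hb
  have h2 : ContinuousOn (fun z => cexp ((μ + k) / 2 * Lg b z +
      (μ - k) / 2 * (starRingEnd ℂ) (Lg b z))) {z | 1 / 2 < ‖z‖} :=
    ((continuousOn_const.mul h1).add (continuousOn_const.mul
      (Complex.continuous_conj.comp_continuousOn h1))).cexp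
  exact h2.congr fun z hz => FF_eq hb (le_of_lt hz)

theorem qq_continuousOn {b : ℂ} (hb : ‖b‖ ≤ 1 / 8) :
    ContinuousOn (qq b) {z | 1 / 2 < ‖z‖} := by
  intro z hz
  obtain ⟨h1, h2⟩ := region (lt_of_le_of_lt hb (by norm_num)) (lt_trans (by norm_num) hz)
  exact (qq_hasDerivAt h1 h2).continuousAt.continuousWithinAt

theorem q1_continuousOn {b : ℂ} (hb : ‖b‖ ≤ 1 / 8) :
    ContinuousOn (q1 b) {z | 1 / 2 < ‖z‖} := by
  unfold q1
  refine ContinuousOn.div (by fun_prop) (by fun_prop) fun z hz => ?_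
  obtain ⟨h1, h2⟩ := region (lt_of_le_of_lt hb (by norm_num)) (lt_trans (by norm_num) hz)
  exact pow_ne_zero 2 (mul_ne_zero h1 h2)

theorem aa_continuousOn {k : ℤ} {μ b : ℂ} (hb : ‖b‖ ≤ 1 / 8) (v : ℂ) :
    ContinuousOn (aa k μ b v) {z | 1 / 2 < ‖z‖} := by
  have h1 : ContinuousOn (fun z => qq b z * v) {z | 1 / 2 < ‖z‖} :=
    (qq_continuousOn hb).mul continuousOn_const
  exact (continuousOn_const.mul h1).add (continuousOn_const.mul
    (Complex.continuous_conj.comp_continuousOn h1))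

theorem bb_continuousOn {k : ℤ} {μ b : ℂ} (hb : ‖b‖ ≤ 1 / 8) (v u : ℂ) :
    ContinuousOn (bb k μ b v u) {z | 1 / 2 < ‖z‖} := by
  have h1 : ContinuousOn (fun z => q1 b z * u * v) {z | 1 / 2 < ‖z‖} :=
    ((q1_continuousOn hb).mul continuousOn_const).mul continuousOn_const
  exact (continuousOn_const.mul h1).add (continuousOn_const.mul
    (Complex.continuous_conj.comp_continuousOn h1))

/-! ### The amplitudes -/

section

variable (k : ℤ) (μ : ℂ)

theorem cc_ge : 1 ≤ cc k μ := by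
  unfold cc
  have h1 := abs_nonneg μ.im
  have h2 := abs_nonneg (k : ℝ)
  linarith

theorem cc_pos : 0 < cc k μ := lt_of_lt_of_le one_pos (cc_ge k μ)

theorem cc_ne : ((cc k μ : ℝ) : ℂ) ≠ 0 := by
  rw [Complex.ofReal_ne_zero]
  exact (cc_pos k μ).ne'

/-- the normalised coefficients -/
noncomputable def cp : ℂ := (μ + k) / 2 / ((cc k μ : ℝ) : ℂ)

noncomputable def cm : ℂ := (μ - k) / 2 / ((cc k μ : ℝ) : ℂ)

variable {k μ}

theorem norm_mu_le {r : Bool} (h : Qp r k μ) : ‖μ‖ + |(k : ℝ)| ≤ 8 * cc k μ := by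
  have h1 := Complex.norm_le_abs_re_add_abs_im μ
  have h2 := h.re
  have h3 := abs_nonneg μ.im
  have h4 := abs_nonneg (k : ℝ)
  unfold cc
  linarith

theorem cp_le {r : Bool} (h : Qp r k μ) : ‖cp k μ‖ ≤ 4 := by
  unfold cp
  have h1 := norm_mu_le h
  have h2 := norm_add_le μ (k : ℂ)
  rw [Complex.norm_intCast] at h2
  rw [norm_div, norm_div, Complex.norm_ofNat, Complex.norm_real, Real.norm_eq_abs,
    abs_of_pos (cc_pos k μ), div_le_iff₀ (cc_pos k μ), div_le_iff₀ (by norm_num)]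
  linarith

theorem cm_le {r : Bool} (h : Qp r k μ) : ‖cm k μ‖ ≤ 4 := by
  unfold cm
  have h1 := norm_mu_le h
  have h2 := norm_sub_le μ (k : ℂ)
  rw [Complex.norm_intCast] at h2
  rw [norm_div, norm_div, Complex.norm_ofNat, Complex.norm_real, Real.norm_eq_abs,
    abs_of_pos (cc_pos k μ), div_le_iff₀ (cc_pos k μ), div_le_iff₀ (by norm_num)]
  linarith

theorem norm_inv_cc : ‖(((cc k μ : ℝ) : ℂ))⁻¹‖ ≤ 1 := by
  rw [norm_inv, Complex.norm_real, Real.norm_eq_abs, abs_of_pos (cc_pos k μ)]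
  exact inv_le_one_of_one_le₀ (cc_ge k μ)

variable (k μ)

/-- the amplitudes without the cut-off in `b` -/
noncomputable def A1 (v b z : ℂ) : ℂ := chi z * (aa k μ b v z / ((cc k μ : ℝ) : ℂ))

noncomputable def A3 (b z : ℂ) : ℂ :=
  chi z * ((bb k μ b 1 I z + aa k μ b 1 z * aa k μ b I z) / ((cc k μ : ℝ) : ℂ) ^ 2)

end

theorem A1_eq (k : ℤ) (μ v b z : ℂ) : A1 k μ v b z =
    cp k μ * v * (chi z * qq b z) +
      cm k μ * (starRingEnd ℂ) v * (starRingEnd ℂ) (chi z * qq b z) := by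
  unfold A1 aa cp cm
  rw [map_mul, map_mul, conj_chi]
  ring

theorem A3_eq (k : ℤ) (μ b z : ℂ) : A3 k μ b z =
    (cp k μ * (((cc k μ : ℝ) : ℂ))⁻¹ * I * (chi z * q1 b z) +
      cm k μ * (((cc k μ : ℝ) : ℂ))⁻¹ * (-I) * (starRingEnd ℂ) (chi z * q1 b z)) +
    (cp k μ * cp k μ * I * (chi z * (qq b z * qq b z)) +
      cm k μ * cm k μ * (-I) * (starRingEnd ℂ) (chi z * (qq b z * qq b z))) := by
  unfold A3 bb aa cp cm
  simp only [map_mul, conj_chi, Complex.conj_I, mul_one]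
  have hc := cc_ne k μ
  field_simp
  ring

/-- the bound for the amplitudes -/
theorem sm_all : ∃ C : ℝ, 1 ≤ C ∧ ∀ (r r' : Bool) (k : ℤ) (μ b : ℂ), Qp r' k μ → ‖b‖ ≤ 1 / 8 →
    Sm r C chi ∧ Sm r C (A1 k μ 1 b) ∧ Sm r C (A1 k μ I b) ∧ Sm r C (A3 k μ b) := by
  obtain ⟨C₀, hC₀, h0⟩ := sm_base (fun _ _ => 1) fun b z _ _ => contDiffAt_const
  obtain ⟨C₁, hC₁, h1⟩ := sm_base qq fun b z hb hz => qq_contDiffAt hb hz
  obtain ⟨C₂, hC₂, h2⟩ := sm_base q1 fun b z hb hz => q1_contDiffAt hb hz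
  obtain ⟨C₃, hC₃, h3⟩ := sm_base (fun b z => qq b z * qq b z) fun b z hb hz =>
    (qq_contDiffAt hb hz).mul (qq_contDiffAt hb hz)
  refine ⟨1 + C₀ + 8 * C₁ + 8 * C₂ + 32 * C₃, by linarith, fun r r' k μ b hQ hb => ?_⟩
  have hA1 : ∀ v : ℂ, ‖v‖ = 1 → Sm r (8 * C₁) (A1 k μ v b) := by
    intro v hv
    have h4 := sm_add (sm_const_mul (h1 r b hb) (cp k μ * v))
      (sm_const_mul (sm_conj (h1 r b hb)) (cm k μ * (starRingEnd ℂ) v))
    refine sm_mono (sm_congr h4 fun z => A1_eq k μ v b z) ?_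
    have h5 : ‖cp k μ * v‖ ≤ 4 := by
      rw [norm_mul, hv, mul_one]
      exact cp_le hQ
    have h6 : ‖cm k μ * (starRingEnd ℂ) v‖ ≤ 4 := by
      rw [norm_mul, RCLike.norm_conj, hv, mul_one]
      exact cm_le hQ
    nlinarith
  refine ⟨?_, ?_, ?_, ?_⟩
  · refine sm_mono (sm_congr (h0 r b hb) fun z => (mul_one _).symm) ?_
    linarith
  · refine sm_mono (hA1 1 norm_one) ?_
    linarith
  · refine sm_mono (hA1 I Complex.norm_I) ?_
    linarith
  · have h4 := sm_add (sm_add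
        (sm_const_mul (h2 r b hb) (cp k μ * (((cc k μ : ℝ) : ℂ))⁻¹ * I))
        (sm_const_mul (sm_conj (h2 r b hb)) (cm k μ * (((cc k μ : ℝ) : ℂ))⁻¹ * (-I))))
      (sm_add (sm_const_mul (h3 r b hb) (cp k μ * cp k μ * I))
        (sm_const_mul (sm_conj (h3 r b hb)) (cm k μ * cm k μ * (-I))))
    refine sm_mono (sm_congr h4 fun z => A3_eq k μ b z) ?_
    have e1 := cp_le hQ
    have e2 := cm_le hQ
    have e3 : ‖(((cc k μ : ℝ) : ℂ))⁻¹‖ ≤ 1 := norm_inv_cc
    have h5 : ‖cp k μ * (((cc k μ : ℝ) : ℂ))⁻¹ * I‖ ≤ 4 := by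
      rw [norm_mul, norm_mul, Complex.norm_I, mul_one]
      nlinarith [norm_nonneg (cp k μ), norm_nonneg ((((cc k μ : ℝ) : ℂ))⁻¹)]
    have h6 : ‖cm k μ * (((cc k μ : ℝ) : ℂ))⁻¹ * (-I)‖ ≤ 4 := by
      rw [norm_mul, norm_mul, norm_neg, Complex.norm_I, mul_one]
      nlinarith [norm_nonneg (cm k μ), norm_nonneg ((((cc k μ : ℝ) : ℂ))⁻¹)]
    have h7 : ‖cp k μ * cp k μ * I‖ ≤ 16 := by
      rw [norm_mul, norm_mul, Complex.norm_I, mul_one]
      nlinarith [norm_nonneg (cp k μ)]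
    have h8 : ‖cm k μ * cm k μ * (-I)‖ ≤ 16 := by
      rw [norm_mul, norm_mul, norm_neg, Complex.norm_I, mul_one]
      nlinarith [norm_nonneg (cm k μ)]
    nlinarith

/-! ### Measurability -/

theorem chi_measurable : Measurable chi := chi_contDiff.continuous.measurable

theorem qq_measurable : Measurable (fun q : ℂ × ℂ => qq q.1 q.2) := by
  unfold qq
  fun_prop

theorem q1_measurable : Measurable (fun q : ℂ × ℂ => q1 q.1 q.2) := by
  unfold q1
  fun_prop

theorem conj_measurable {f : ℂ × ℂ → ℂ} (h : Measurable f) :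
    Measurable (fun q => (starRingEnd ℂ) (f q)) := Complex.continuous_conj.measurable.comp h

theorem chi2_measurable : Measurable (fun q : ℂ × ℂ => chi q.2) :=
  chi_measurable.comp measurable_snd

theorem A1_measurable (k : ℤ) (μ v : ℂ) : Measurable (fun q : ℂ × ℂ => A1 k μ v q.1 q.2) := by
  have h : (fun q : ℂ × ℂ => A1 k μ v q.1 q.2) = fun q =>
      cp k μ * v * (chi q.2 * qq q.1 q.2) +
        cm k μ * (starRingEnd ℂ) v * (starRingEnd ℂ) (chi q.2 * qq q.1 q.2) :=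
    funext fun q => A1_eq k μ v q.1 q.2
  rw [h]
  have h1 := chi2_measurable.mul qq_measurable
  exact (h1.const_mul _).add ((conj_measurable h1).const_mul _)

theorem A3_measurable (k : ℤ) (μ : ℂ) : Measurable (fun q : ℂ × ℂ => A3 k μ q.1 q.2) := by
  have h : (fun q : ℂ × ℂ => A3 k μ q.1 q.2) = fun q =>
    (cp k μ * (((cc k μ : ℝ) : ℂ))⁻¹ * I * (chi q.2 * q1 q.1 q.2) +
      cm k μ * (((cc k μ : ℝ) : ℂ))⁻¹ * (-I) * (starRingEnd ℂ) (chi q.2 * q1 q.1 q.2)) +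
    (cp k μ * cp k μ * I * (chi q.2 * (qq q.1 q.2 * qq q.1 q.2)) +
      cm k μ * cm k μ * (-I) * (starRingEnd ℂ) (chi q.2 * (qq q.1 q.2 * qq q.1 q.2))) :=
    funext fun q => A3_eq k μ q.1 q.2
  rw [h]
  have h1 := chi2_measurable.mul q1_measurable
  have h2 := chi2_measurable.mul (qq_measurable.mul qq_measurable)
  exact ((h1.const_mul _).add ((conj_measurable h1).const_mul _)).add
    ((h2.const_mul _).add ((conj_measurable h2).const_mul _))

open scoped Classical in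
/-- the cut-off in `b` -/
noncomputable def cut (A : ℂ → ℂ → ℂ) (b z : ℂ) : ℂ := if ‖b‖ ≤ 1 / 8 then A b z else 0

theorem cut_measurable {A : ℂ → ℂ → ℂ} (h : Measurable (fun q : ℂ × ℂ => A q.1 q.2)) :
    Measurable (fun q : ℂ × ℂ => cut A q.1 q.2) := by
  classical
  unfold cut
  refine Measurable.ite ?_ h measurable_const
  exact measurableSet_le (measurable_fst.norm) measurable_const

theorem cut_of {A : ℂ → ℂ → ℂ} {b : ℂ} (hb : ‖b‖ ≤ 1 / 8) (z : ℂ) : cut A b z = A b z := if_pos hb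

theorem cut_sm {A : ℂ → ℂ → ℂ} {r : Bool} {C : ℝ} {b : ℂ} (hb : ‖b‖ ≤ 1 / 8)
    (h : Sm r C (A b)) : Sm r C (cut A b) := sm_congr h fun z => cut_of hb z

theorem cut_bound {A : ℂ → ℂ → ℂ} {C : ℝ} (hC : 0 ≤ C)
    (h : ∀ b, ‖b‖ ≤ 1 / 8 → Sm false C (A b)) (b z : ℂ) :
    ‖cut A b z‖ ≤ C ∧ (cut A b z ≠ 0 → ‖b‖ ≤ 1 / 8 ∧ ‖z‖ ≤ 3) := by
  have hr : Rl false z := fun h => by cases h
  by_cases hb : ‖b‖ ≤ 1 / 8
  · rw [cut_of hb]
    exact ⟨(h b hb).bound z hr, fun hne => ⟨hb, ((h b hb).supp z hr hne).2⟩⟩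
  · have h0 : cut A b z = 0 := if_neg hb
    rw [h0]
    exact ⟨by rw [norm_zero]; exact hC, fun hne => absurd rfl hne⟩

/-! ### Integrals -/

theorem int_mz_true (G : ℂ → ℂ) : ∫ s, G s ∂mz true = ∫ x : ℝ, G x := by
  have h : MeasurableEmbedding (fun x : ℝ => (x : ℂ)) :=
    Complex.isometry_ofReal.isClosedEmbedding.measurableEmbedding
  have h1 : mz true = Measure.map (fun x : ℝ => (x : ℂ)) volume := by simp [mz]
  rw [h1, h.integral_map]

theorem mz_false : mz false = volume := by simp [mz]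

/-- partial integration -/
theorem ftc {η : ℝ} (hη : 0 < η) {X X' : ℝ → ℂ} (h : ∀ t ∈ Icc 0 η, HasDerivAt X (X' t) t)
    (hc : ContinuousOn X' (Icc 0 η)) :
    ∫ t in (0 : ℝ)..η, (((η : ℂ))⁻¹ * X t - (1 - (t : ℂ) / η) * X' t) = X 0 := by
  have hη' : (η : ℂ) ≠ 0 := by
    rw [Complex.ofReal_ne_zero]
    exact hη.ne'
  have hX : ContinuousOn X (Icc 0 η) := fun t ht => (h t ht).continuousAt.continuousWithinAt
  have h1 : ∀ t ∈ uIcc 0 η, HasDerivAt (fun t : ℝ => -((1 - (t : ℂ) / η) * X t))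
      (((η : ℂ))⁻¹ * X t - (1 - (t : ℂ) / η) * X' t) t := by
    intro t ht
    rw [uIcc_of_le hη.le] at ht
    have h2 : HasDerivAt (fun t : ℝ => 1 - (t : ℂ) / η) (-(((η : ℂ))⁻¹)) t := by
      have h3 : HasDerivAt (fun t : ℝ => (t : ℂ)) 1 t := Complex.ofRealCLM.hasDerivAt
      refine ((h3.div_const (η : ℂ)).const_sub 1).congr_deriv ?_
      rw [one_div]
    refine ((h2.mul (h t ht)).neg).congr_deriv ?_
    ring
  have h2 : IntervalIntegrable (fun t : ℝ => ((η : ℂ))⁻¹ * X t - (1 - (t : ℂ) / η) * X' t)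
      volume 0 η := by
    refine ContinuousOn.intervalIntegrable ?_
    rw [uIcc_of_le hη.le]
    refine (continuousOn_const.mul hX).sub (ContinuousOn.mul ?_ hc)
    fun_prop
  rw [intervalIntegral.integral_eq_sub_of_hasDerivAt h1 h2]
  simp [hη']

/-- the square -/
def Sq (η : ℝ) : Set ℂ := Icc 0 η ×ℂ Icc 0 η

theorem Sq_compact (η : ℝ) : IsCompact (Sq η) := isCompact_Icc.reProdIm isCompact_Icc

theorem Sq_measurable (η : ℝ) : MeasurableSet (Sq η) := (Sq_compact η).measurableSet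

theorem Sq_norm {η : ℝ} {s : ℂ} (hs : s ∈ Sq η) : ‖s‖ ≤ 2 * η := by
  obtain ⟨h1, h2⟩ := Complex.mem_reProdIm.1 hs
  have h3 := Complex.norm_le_abs_re_add_abs_im s
  rw [abs_of_nonneg h1.1, abs_of_nonneg h2.1] at h3
  linarith [h1.2, h2.2]

/-- Fubini on the square -/
theorem int_sq {η : ℝ} (hη : 0 < η) {G : ℂ → ℂ} (hG : ContinuousOn G (Sq η)) :
    ∫ s in Sq η, G s = ∫ x in (0 : ℝ)..η, ∫ y in (0 : ℝ)..η, G ((x : ℂ) + y * I) := by
  have h1 := (Complex.volume_preserving_equiv_real_prod.symm).setIntegral_preimage_emb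
    measurableEquivRealProd.symm.measurableEmbedding G (Sq η)
  have h2 : (measurableEquivRealProd.symm ⁻¹' (Sq η)) = Icc 0 η ×ˢ Icc 0 η := by
    ext p
    rfl
  rw [h2] at h1
  rw [← h1]
  have h3 : ∀ p : ℝ × ℝ, measurableEquivRealProd.symm p = (p.1 : ℂ) + p.2 * I := by
    intro p
    rw [measurableEquivRealProd_symm_apply]
    apply Complex.ext <;> simp
  have h4 : ContinuousOn (fun p : ℝ × ℝ => G (measurableEquivRealProd.symm p))
      (Icc 0 η ×ˢ Icc 0 η) := by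
    have h5 : Continuous (fun p : ℝ × ℝ => measurableEquivRealProd.symm p) := by
      have h6 : (fun p : ℝ × ℝ => measurableEquivRealProd.symm p) =
          fun p => (p.1 : ℂ) + p.2 * I := funext h3
      rw [h6]
      fun_prop
    refine hG.comp h5.continuousOn fun p hp => ?_
    rw [← h2] at hp
    exact hp
  have h5 : IntegrableOn (fun p : ℝ × ℝ => G (measurableEquivRealProd.symm p))
      (Icc 0 η ×ˢ Icc 0 η) (volume.prod volume) :=
    h4.integrableOn_compact (isCompact_Icc.prod isCompact_Icc)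
  have h6 := setIntegral_prod (fun p : ℝ × ℝ => G (measurableEquivRealProd.symm p)) h5
  rw [← Measure.volume_eq_prod] at h6
  rw [h6, intervalIntegral.integral_of_le hη.le, integral_Icc_eq_integral_Ioc]
  refine setIntegral_congr_fun measurableSet_Ioc fun x _ => ?_
  rw [intervalIntegral.integral_of_le hη.le, integral_Icc_eq_integral_Ioc]
  refine setIntegral_congr_fun measurableSet_Ioc fun y _ => ?_
  simp only [h3]

end Pool.Agent.H77.BH
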